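import Pool.Agent.MP_e73476_ag.T.Ovals
import Pool.Agent.MP_e73476_ag.T.Bound
import Pool.Agent.MP_e73476_ag.T.Signs

-- part MP_e73476_ag.T.Patch
section

section

/-! The lower faces form a triangulation. -/

open MvPolynomial Set Filter Topology

noncomputable section

namespace Pool.Agent.TC

open Pool.Agent.Rags

variable {d : ℤ} {ν : V → ℝ}

theorem itp_rot (f : V → ℝ) (p q r x : V) : itp f (q, r, p) x = itp f (p, q, r) x := by
  simp only [itp]; ring

/-- `itp` reproduces affine functions -/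
theorem itp_affine {p q r : V} (hd : det (q - p) (r - p) = 1) (A B C : ℝ) (x : V) :
    itp (fun y => A * y.1 + B * y.2 + C) (p, q, r) x = A * x.1 + B * x.2 + C := by
  have h : ((det (q - p) (r - p) : ℤ) : ℝ) = 1 := by rw [hd]; simp
  simp only [itp, det, Prod.fst_sub, Prod.snd_sub] at h ⊢
  push_cast at h ⊢
  linear_combination (A * x.1 + B * x.2 + C) * h

theorem itp_self {p q r : V} (hd : det (q - p) (r - p) = 1) (f : V → ℝ) :
    itp f (p, q, r) p = f p ∧ itp f (p, q, r) q = f q ∧ itp f (p, q, r) r = f r := by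
  have h : ((det (q - p) (r - p) : ℤ) : ℝ) = 1 := by rw [hd]; simp
  simp only [itp, det, Prod.fst_sub, Prod.snd_sub] at h ⊢
  push_cast at h ⊢
  refine ⟨?_, ?_, ?_⟩
  · linear_combination (f p) * h
  · linear_combination (f q) * h
  · linear_combination (f r) * h

/-- `itp` is an affine function of the point -/
theorem itp_eq (f : V → ℝ) (t : Tr) : ∃ A B C : ℝ, ∀ x : V, itp f t x = A * x.1 + B * x.2 + C := by
  obtain ⟨p, q, r⟩ := t
  refine ⟨(q.2 - r.2) * f p + (r.2 - p.2) * f q + (p.2 - q.2) * f r,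
    (r.1 - q.1) * f p + (p.1 - r.1) * f q + (q.1 - p.1) * f r,
    (q.1 * r.2 - q.2 * r.1) * f p + (r.1 * p.2 - r.2 * p.1) * f q +
      (p.1 * q.2 - p.2 * q.1) * f r, fun x => ?_⟩
  simp only [itp, det, Prod.fst_sub, Prod.snd_sub]
  push_cast
  ring

theorem Reg1_ne {p q r : V} (hd : det (q - p) (r - p) = 1) : r ≠ p ∧ r ≠ q ∧ p ≠ q := by
  refine ⟨?_, ?_, ?_⟩
  · rintro rfl
    simp [det] at hd
  · rintro rfl
    simp only [det] at hd
    have : (r - p).1 * (r - p).2 - (r - p).2 * (r - p).1 = 0 := by ring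
    omega
  · rintro rfl
    simp [det] at hd

theorem Reg1_rot {p q r : V} (h : (p, q, r) ∈ regS d ν) : (q, r, p) ∈ regS d ν := by
  rw [mem_regS] at h ⊢
  obtain ⟨⟨hp, hq, hr⟩, hd, hx⟩ := h
  refine ⟨⟨hq, hr, hp⟩, ?_, fun x h0 h1 h2 h3 => ?_⟩
  · rw [← hd]
    simp only [det, Prod.fst_sub, Prod.snd_sub]
    ring
  · rw [itp_rot]
    exact hx x h0 h3 h1 h2

theorem Reg1_le {p q r x : V} (h : (p, q, r) ∈ regS d ν) (hx : InT d x) :
    itp ν (p, q, r) x ≤ ν x := by
  rw [mem_regS] at h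
  obtain ⟨-, hd, hlt⟩ := h
  obtain ⟨e1, e2, e3⟩ := itp_self hd ν
  by_cases h1 : x = p
  · rw [h1, e1]
  by_cases h2 : x = q
  · rw [h2, e2]
  by_cases h3 : x = r
  · rw [h3, e3]
  exact (hlt x hx h1 h2 h3).le

theorem Reg1_sum {p q a b : V} (t : Tr) (hs : a + b = p + q) :
    itp ν t a + itp ν t b = itp ν t p + itp ν t q := by
  obtain ⟨A, B, C, h⟩ := itp_eq ν t
  have h1 : (a.1 : ℝ) + b.1 = p.1 + q.1 := by exact_mod_cast congrArg Prod.fst hs
  have h2 : (a.2 : ℝ) + b.2 = p.2 + q.2 := by exact_mod_cast congrArg Prod.snd hs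
  rw [h, h, h, h]
  linear_combination A * h1 + B * h2

theorem Reg1_key {p q r a b c : V} (h1 : (p, q, r) ∈ regS d ν) (h2 : (a, b, c) ∈ regS d ν)
    (hs : a + b = p + q) : (a = p ∧ b = q) ∨ (a = q ∧ b = p) := by
  have k1 := mem_regS.1 h1
  have k2 := mem_regS.1 h2
  obtain ⟨e1, e2, -⟩ := itp_self k1.2.1 ν
  obtain ⟨f1, f2, -⟩ := itp_self k2.2.1 ν
  have s1 := Reg1_sum (ν := ν) (p, q, r) hs
  have s2 := Reg1_sum (ν := ν) (a, b, c) hs
  have l1 := Reg1_le h1 k2.1.1
  have l2 := Reg1_le h1 k2.1.2.1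
  have l3 := Reg1_le h2 k1.1.1
  have l4 := Reg1_le h2 k1.1.2.1
  have ha : a = p ∨ a = q ∨ a = r := by
    by_contra hn
    push Not at hn
    have := k1.2.2 a k2.1.1 hn.1 hn.2.1 hn.2.2
    linarith
  have hb : b = p ∨ b = q ∨ b = r := by
    by_contra hn
    push Not at hn
    have := k1.2.2 b k2.1.2.1 hn.1 hn.2.1 hn.2.2
    linarith
  obtain ⟨n1, n2, -⟩ := Reg1_ne k1.2.1
  obtain ⟨-, -, n3⟩ := Reg1_ne k2.2.1
  rcases ha with ha | ha | ha
  · left
    refine ⟨ha, ?_⟩
    rw [ha] at hs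
    exact add_left_cancel hs
  · right
    refine ⟨ha, ?_⟩
    rw [ha, add_comm p q] at hs
    exact add_left_cancel hs
  · exfalso
    rcases hb with hb | hb | hb
    · rw [ha, hb, add_comm p q] at hs
      exact n2 (add_right_cancel hs)
    · rw [ha, hb] at hs
      exact n1 (add_right_cancel hs)
    · exact n3 (ha.trans hb.symm)

/-- the first barycentric coordinate of the point near the midpoint -/
theorem Reg1_coord {a b c p q r : V} {ε α β γ : ℝ} (hD : det (b - a) (c - a) = 1)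
    (hs : α + β + γ = 1)
    (h1 : ((p.1 : ℝ) + q.1) / 2 - ε * (r.1 - p.1) = α * a.1 + β * b.1 + γ * c.1)
    (h2 : ((p.2 : ℝ) + q.2) / 2 - ε * (r.2 - p.2) = α * a.2 + β * b.2 + γ * c.2) :
    α = ((det (b - p) (c - p) + det (b - q) (c - q) : ℤ) : ℝ) / 2 -
      ε * ((det (b - r) (c - r) - det (b - p) (c - p) : ℤ) : ℝ) := by
  have h : ((det (b - a) (c - a) : ℤ) : ℝ) = 1 := by rw [hD]; simp
  simp only [det, Prod.fst_sub, Prod.snd_sub] at h ⊢
  push_cast at h ⊢
  obtain rfl : γ = 1 - α - β := by linarith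
  linear_combination (-α) * h - ((b.2 : ℝ) - c.2) * h1 - ((c.1 : ℝ) - b.1) * h2

theorem Reg1_bd {b c p r : V} (hb : InT d b) (hc : InT d c) (hp : InT d p) (hr : InT d r) :
    -(2 * d ^ 2) ≤ det (b - r) (c - r) - det (b - p) (c - p) := by
  have e : det (b - r) (c - r) - det (b - p) (c - p) =
      (r.1 - p.1) * (b.2 - c.2) + (r.2 - p.2) * (c.1 - b.1) := by
    simp only [det, Prod.fst_sub, Prod.snd_sub]; ring
  unfold InT at hb hc hp hr
  have k : ∀ x y : ℤ, -d ≤ x → x ≤ d → -d ≤ y → y ≤ d → -(d ^ 2) ≤ x * y := by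
    intro x y x1 x2 y1 y2
    nlinarith [mul_nonneg (sub_nonneg.2 x1) (sub_nonneg.2 y1),
      mul_nonneg (sub_nonneg.2 x2) (sub_nonneg.2 y2)]
  have k1 := k (r.1 - p.1) (b.2 - c.2) (by omega) (by omega) (by omega) (by omega)
  have k2 := k (r.2 - p.2) (c.1 - b.1) (by omega) (by omega) (by omega) (by omega)
  rw [e]
  linarith

theorem Reg1_nonneg {A m : ℤ} {α : ℝ} (h0 : 0 ≤ α) (hm : -(2 * d ^ 2) ≤ m)
    (h : α = (A : ℝ) / 2 - 1 / (8 * (d : ℝ) ^ 2 + 8) * m) : 0 ≤ A := by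
  have hm' : -(2 * (d : ℝ) ^ 2) ≤ m := by exact_mod_cast hm
  have hp : (0 : ℝ) < 8 * (d : ℝ) ^ 2 + 8 := by positivity
  have h1 : -(1 / 4 : ℝ) ≤ 1 / (8 * (d : ℝ) ^ 2 + 8) * m := by
    rw [one_div_mul_eq_div, le_div_iff₀ hp]
    linarith
  have h2 : (-1 : ℝ) < A := by linarith
  have h3 : (-1 : ℤ) < A := by exact_mod_cast h2
  omega

/-- the case where the midpoint of `pq` is the midpoint of `ab` -/
theorem Reg1_fin {p q r a b c : V} {ε γ : ℝ} (h1 : (p, q, r) ∈ regS d ν)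
    (h2 : (a, b, c) ∈ regS d ν) (hs : a + b = p + q) (he : 0 < ε) (h0 : 0 ≤ γ)
    (h : γ = ((det (a - p) (b - p) + det (a - q) (b - q) : ℤ) : ℝ) / 2 -
      ε * ((det (a - r) (b - r) - det (a - p) (b - p) : ℤ) : ℝ)) :
    ∃ s, (q, p, s) ∈ regS d ν := by
  rcases Reg1_key h1 h2 hs with ⟨rfl, rfl⟩ | ⟨rfl, rfl⟩
  · exfalso
    have hd := (mem_regS.1 h1).2.1
    have e1 : det (a - a) (b - a) = 0 := by simp [det]
    have e2 : det (a - b) (b - b) = 0 := by simp [det]
    have e3 : det (a - r) (b - r) = 1 := by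
      rw [← hd]; simp only [det, Prod.fst_sub, Prod.snd_sub]; ring
    rw [e1, e2, e3] at h
    push_cast at h
    linarith
  · exact ⟨c, h2⟩

/-- if `r ≠ r'` then `r' = r + j (q - p)`; add the two strict inequalities -/
theorem regS_uniq {p q r r' : V} (h1 : (p, q, r) ∈ regS d ν) (h2 : (p, q, r') ∈ regS d ν) :
    r = r' := by
  by_contra hn
  have k1 := mem_regS.1 h1
  have k2 := mem_regS.1 h2
  obtain ⟨n1, n2, -⟩ := Reg1_ne k1.2.1
  obtain ⟨m1, m2, -⟩ := Reg1_ne k2.2.1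
  have l1 := k1.2.2 r' k2.1.2.2 m1 m2 (Ne.symm hn)
  have l2 := k2.2.2 r k1.1.2.2 n1 n2 hn
  have d1 : ((det (q - p) (r - p) : ℤ) : ℝ) = 1 := by rw [k1.2.1]; simp
  have d2 : ((det (q - p) (r' - p) : ℤ) : ℝ) = 1 := by rw [k2.2.1]; simp
  have e : itp ν (p, q, r) r' + itp ν (p, q, r') r = ν r + ν r' := by
    simp only [itp, det, Prod.fst_sub, Prod.snd_sub] at d1 d2 ⊢
    push_cast at d1 d2 ⊢
    linear_combination (ν r') * d1 + (ν r) * d2
  linarith

/-- Plan: cover the point `z = (p + q)/2 - ε (r - p)`, `ε = 1/(8 d² + 8)` say (it is in `T` since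
`¬ Bd`), by a triangle `(a,b,c)`. The barycentric coordinates of the midpoint are half-integers
`> -1/2` with sum `1`, and the midpoint is not a lattice point, so up to rotation `a + b = p + q`.
Convexity in both directions (`itp` is affine) gives `ν a + ν b = ν p + ν q`, so
`a, b ∈ {p,q,r}`, `{a,b} = {p,q}`; `(a,b) = (p,q)` is impossible because `z` is on the other side
of the line `pq`. -/
theorem regS_opp (hc : Cov d (regS d ν)) {p q r : V} (h1 : (p, q, r) ∈ regS d ν)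
    (hb : ¬ Bd d p q) : ∃ s, (q, p, s) ∈ regS d ν := by
  have k1 := mem_regS.1 h1
  obtain ⟨⟨hp, hq, hr⟩, hd, -⟩ := k1
  have hpos : (0 : ℝ) < 8 * (d : ℝ) ^ 2 + 8 := by positivity
  have he : (0 : ℝ) < 1 / (8 * (d : ℝ) ^ 2 + 8) := by positivity
  have hsm : ∀ x y z : ℤ, 1 ≤ x + y → z ≤ d →
      (0 : ℝ) ≤ ((x : ℝ) + y) / 2 - 1 / (8 * (d : ℝ) ^ 2 + 8) * z := by
    intro x y z h1 h2
    have h1' : (1 : ℝ) ≤ x + y := by exact_mod_cast h1
    have h2' : (z : ℝ) ≤ d := by exact_mod_cast h2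
    have : 1 / (8 * (d : ℝ) ^ 2 + 8) * z ≤ 1 / 2 := by
      rw [one_div_mul_eq_div, div_le_iff₀ hpos]
      nlinarith [sq_nonneg (2 * (d : ℝ) - 1)]
    linarith
  have hp' := hp
  have hq' := hq
  have hr' := hr
  unfold InT at hp' hq' hr'
  unfold Bd at hb
  have u1 := hsm p.1 q.1 (r.1 - p.1) (by omega) (by omega)
  have u2 := hsm p.2 q.2 (r.2 - p.2) (by omega) (by omega)
  have u3 := hsm (d - p.1 - p.2) (d - q.1 - q.2) (p.1 + p.2 - r.1 - r.2) (by omega) (by omega)
  push_cast at u1 u2 u3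
  obtain ⟨a, b, c, h2, α, β, γ, ha, hb', hc', hs, z1, z2⟩ := hc _ _ u1 u2 (by linarith)
  have h3 := Reg1_rot h2
  have h4 := Reg1_rot h3
  obtain ⟨⟨ia, ib, ic⟩, hD, -⟩ := mem_regS.1 h2
  have hD3 := (mem_regS.1 h3).2.1
  have hD4 := (mem_regS.1 h4).2.1
  have c1 := Reg1_coord hD hs z1 z2
  have c2 := Reg1_coord (α := β) (β := γ) (γ := α) hD3 (by linarith)
    (z1.trans (by ring)) (z2.trans (by ring))
  have c3 := Reg1_coord (α := γ) (β := α) (γ := β) hD4 (by linarith)
    (z1.trans (by ring)) (z2.trans (by ring))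
  have n1 := Reg1_nonneg ha (Reg1_bd ib ic hp hr) c1
  have n2 := Reg1_nonneg hb' (Reg1_bd ic ia hp hr) c2
  have n3 := Reg1_nonneg hc' (Reg1_bd ia ib hp hr) c3
  generalize hA : det (b - p) (c - p) + det (b - q) (c - q) = A at n1
  generalize hB : det (c - p) (a - p) + det (c - q) (a - q) = B at n2
  generalize hC : det (a - p) (b - p) + det (a - q) (b - q) = C at n3
  have s0 : A + B + C = 2 := by
    rw [← hA, ← hB, ← hC]
    simp only [det, Prod.fst_sub, Prod.snd_sub] at hD ⊢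
    linear_combination 2 * hD
  have s1 : A * a.1 + B * b.1 + C * c.1 = p.1 + q.1 := by
    rw [← hA, ← hB, ← hC]
    simp only [det, Prod.fst_sub, Prod.snd_sub] at hD ⊢
    linear_combination (p.1 + q.1) * hD
  have s2 : A * a.2 + B * b.2 + C * c.2 = p.2 + q.2 := by
    rw [← hA, ← hB, ← hC]
    simp only [det, Prod.fst_sub, Prod.snd_sub] at hD ⊢
    linear_combination (p.2 + q.2) * hD
  have ev : ∀ x y : ℤ, 2 * x = p.1 + q.1 → 2 * y = p.2 + q.2 → False := by
    intro x y e1 e2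
    simp only [det, Prod.fst_sub, Prod.snd_sub] at hd
    have f1 : q.1 - p.1 = 2 * (x - p.1) := by omega
    have f2 : q.2 - p.2 = 2 * (y - p.2) := by omega
    rw [f1, f2] at hd
    have : 2 * ((x - p.1) * (r.2 - p.2) - (y - p.2) * (r.1 - p.1)) = 1 := by linarith
    omega
  have hcase : (A = 2 ∧ B = 0 ∧ C = 0) ∨ (A = 0 ∧ B = 2 ∧ C = 0) ∨ (A = 0 ∧ B = 0 ∧ C = 2) ∨
      (A = 1 ∧ B = 1 ∧ C = 0) ∨ (A = 0 ∧ B = 1 ∧ C = 1) ∨ (A = 1 ∧ B = 0 ∧ C = 1) := by omega
  rcases hcase with ⟨eA, eB, eC⟩ | ⟨eA, eB, eC⟩ | ⟨eA, eB, eC⟩ | ⟨eA, eB, eC⟩ | ⟨eA, eB, eC⟩ |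
    ⟨eA, eB, eC⟩ <;> rw [eA, eB, eC] at s1 s2
  · exact (ev a.1 a.2 (by linarith) (by linarith)).elim
  · exact (ev b.1 b.2 (by linarith) (by linarith)).elim
  · exact (ev c.1 c.2 (by linarith) (by linarith)).elim
  · exact Reg1_fin h1 h2 (Prod.ext (by simp only [Prod.fst_add]; linarith)
      (by simp only [Prod.snd_add]; linarith)) he hc' c3
  · exact Reg1_fin h1 h3 (Prod.ext (by simp only [Prod.fst_add]; linarith)
      (by simp only [Prod.snd_add]; linarith)) he ha c1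
  · exact Reg1_fin h1 h4 (Prod.ext (by simp only [Prod.fst_add]; linarith)
      (by simp only [Prod.snd_add]; linarith)) he hb' c2

theorem regS_tri (hd : 0 ≤ d) (hc : Cov d (regS d ν)) : Tri d (regS d ν) := by
  refine ⟨fun p q r h => Reg1_rot h, fun p q r h => (mem_regS.1 h).2.1,
    fun p q r h => (mem_regS.1 h).1.1, fun p q r r' h1 h2 => regS_uniq h1 h2,
    fun p q r h hb => regS_opp hc h hb, ?_⟩
  obtain ⟨p, q, r, h, -⟩ := hc 0 0 le_rfl le_rfl (by simpa using hd)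
  exact ⟨_, h⟩

end Pool.Agent.TC

end
end

section

/-! Stress and margins of a regular triangulation. -/

open MvPolynomial Set Filter Topology

noncomputable section

namespace Pool.Agent.TC

open Pool.Agent.Rags

variable {d : ℤ} {ν : V → ℝ}

/-- the weight of the edge `p q` with opposite vertices `r`, `s` -/
def Reg2_W (ν : V → ℝ) (p q r s : V) : ℝ :=
  ν r + ν s - (det (s - p) (r - p) : ℤ) * ν q - (det (r - q) (s - q) : ℤ) * ν p

def Reg2_om (S : Finset Tr) (ν : V → ℝ) (p q : V) : ℝ :=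
  ∑ t ∈ S with (t.1 = p ∧ t.2.1 = q), ∑ t' ∈ S with (t'.1 = q ∧ t'.2.1 = p),
    Reg2_W ν p q t.2.2 t'.2.2

theorem Reg2_filter {S : Finset Tr} (h : Tri d S) {p q r : V} (ht : (p, q, r) ∈ S) :
    S.filter (fun t => t.1 = p ∧ t.2.1 = q) = {(p, q, r)} := by
  ext ⟨a, b, c⟩
  simp only [Finset.mem_filter, Finset.mem_singleton, Prod.mk.injEq]
  constructor
  · rintro ⟨h1, rfl, rfl⟩
    exact ⟨rfl, rfl, h.uniq _ _ _ _ h1 ht⟩
  · rintro ⟨rfl, rfl, rfl⟩
    exact ⟨ht, rfl, rfl⟩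

theorem Reg2_om_eq {S : Finset Tr} (h : Tri d S) {p q r s : V} (ht : (p, q, r) ∈ S)
    (hs : (q, p, s) ∈ S) : Reg2_om S ν p q = Reg2_W ν p q r s := by
  unfold Reg2_om
  rw [Reg2_filter h ht, Reg2_filter h hs]
  simp

theorem Reg2_om_symm (S : Finset Tr) (p q : V) : Reg2_om S ν p q = Reg2_om S ν q p := by
  unfold Reg2_om
  rw [Finset.sum_comm]
  refine Finset.sum_congr rfl fun t _ => Finset.sum_congr rfl fun t' _ => ?_
  unfold Reg2_W
  ring

theorem Reg2_W_eq {p q r s : V} (hs : det (p - q) (s - q) = 1) :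
    Reg2_W ν p q r s = ν s - itp ν (p, q, r) s := by
  have e1 : det (p - s) (q - s) = -1 := by
    simp only [det, Prod.fst_sub, Prod.snd_sub] at *
    linear_combination -hs
  have e2 : det (r - s) (p - s) = det (s - p) (r - p) := by
    simp only [det, Prod.fst_sub, Prod.snd_sub]; ring
  have e3 : det (q - s) (r - s) = det (r - q) (s - q) := by
    simp only [det, Prod.fst_sub, Prod.snd_sub]; ring
  simp only [Reg2_W, itp, e1, e2, e3]
  push_cast
  ring

theorem Reg2_jump {v x r s η : V} (h1 : det (x - v) (r - v) = 1) (h2 : det (s - v) (x - v) = 1) :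
    -(((det η (r - v) : ℤ) : ℝ) * (ν x - ν v) + (det (x - v) η : ℤ) * (ν r - ν v)) -
      -(((det η (x - v) : ℤ) : ℝ) * (ν s - ν v) + (det (s - v) η : ℤ) * (ν x - ν v)) =
      Reg2_W ν v x r s * (det η (x - v) : ℤ) := by
  have e1 : det (r - x) (s - x) = 2 - det (s - v) (r - v) := by
    simp only [det, Prod.fst_sub, Prod.snd_sub] at *
    linear_combination h1 + h2
  have e2 : det (x - v) η = -det η (x - v) := by
    simp only [det]; ring
  have e3 : det (s - v) η = det η (r - v) - det (s - v) (r - v) * det η (x - v) := by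
    simp only [det, Prod.fst_sub, Prod.snd_sub] at *
    linear_combination (η.1 * (s.2 - v.2) - η.2 * (s.1 - v.1)) * h1 +
      (η.1 * (r.2 - v.2) - η.2 * (r.1 - v.1)) * h2
  simp only [Reg2_W, e1, e2, e3]
  push_cast
  ring

/-- Plan: `ω p q = ∑ t ∈ S with (t.1, t.2.1) = (p, q), ∑ t' ∈ S with (t'.1, t'.2.1) = (q, p),
(ν r + ν s - det (s - p) (r - p) * ν q - det (r - q) (s - q) * ν p)` with `r = t.2.2`,
`s = t'.2.2` (symmetric by `sum_comm`); on an interior edge it is `ν s - itp ν (p,q,r) s > 0`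
(`opp_eq`). Equilibrium: `fan_zero` for
`F (v,a,b) = det η (b - v) * (ν a - ν v) + det (a - v) η * (ν b - ν v)`, whose jump across `v x`
is `ω v x * det (x - v) η`. -/
theorem regS_stress (h : Tri d (regS d ν)) : ∃ ω, Stress d (regS d ν) ω := by
  refine ⟨Reg2_om (regS d ν) ν, Reg2_om_symm _, ?_, ?_⟩
  · intro p q r s ht hs
    have d1 := h.uni _ _ _ ht
    have d2 := h.uni _ _ _ hs
    rw [Reg2_om_eq h ht hs, Reg2_W_eq d2, sub_pos]
    refine (mem_regS.1 ht).2.2 s (h.inT3 hs) ?_ ?_ ?_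
    · rintro rfl
      simp only [det] at d2
      linarith [mul_comm (s - q).1 (s - q).2]
    · rintro rfl
      simp [det] at d2
    · rintro rfl
      simp only [det, Prod.fst_sub, Prod.snd_sub] at d1 d2
      have : (0 : ℤ) = 2 := by linear_combination d1 + d2
      omega
  · intro v η hv
    refine h.fan_zero hv (fun t => -(((det η (t.2.2 - v) : ℤ) : ℝ) * (ν t.2.1 - ν v) +
      (det (t.2.1 - v) η : ℤ) * (ν t.2.2 - ν v)))
      (fun x => Reg2_om (regS d ν) ν v x * (det η (x - v) : ℤ)) ?_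
    intro x r s h1 h2
    rw [Reg2_om_eq h h1 (h.rot2 h2)]
    exact Reg2_jump (h.uni _ _ _ h1) (h.uni _ _ _ h2)

/-- `log |a x * t ^ ν x| = log |a x| + ν x * log t`, `log t → -∞`, finitely many conditions -/
theorem regS_marg {a : V → ℝ} (ha : ∀ p, InT d p → a p ≠ 0) (M : ℝ) :
    ∀ᶠ t in 𝓝[>] (0 : ℝ), Marg d (regS d ν) (fun p => a p * t ^ ν p) M := by
  have key : ∀ T ∈ regS d ν, ∀ᶠ t in 𝓝[>] (0 : ℝ), ∀ x ∈ pts d, x ≠ T.1 → x ≠ T.2.1 →
      x ≠ T.2.2 → Real.log |a x * t ^ ν x| + M ≤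
        itp (fun y => Real.log |a y * t ^ ν y|) T x := by
    rintro ⟨p, q, r⟩ hT
    obtain ⟨⟨hp, hq, hr⟩, -, hlt⟩ := mem_regS.1 hT
    rw [Filter.eventually_all_finset]
    intro x hx
    have hx' := mem_pts.1 hx
    by_cases hne : x ≠ p ∧ x ≠ q ∧ x ≠ r
    · have hneg : itp ν (p, q, r) x - ν x < 0 := sub_neg.2 (hlt x hx' hne.1 hne.2.1 hne.2.2)
      have ht : Tendsto (fun t : ℝ => (itp ν (p, q, r) x - ν x) * Real.log t) (𝓝[>] 0) atTop :=
        Real.tendsto_log_nhdsGT_zero.const_mul_atBot_of_neg hneg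
      filter_upwards [ht.eventually_ge_atTop
        (Real.log |a x| + M - itp (fun y => Real.log |a y|) (p, q, r) x),
        self_mem_nhdsWithin] with t h1 ht0
      intro _ _ _
      have ht0' : (0 : ℝ) < t := ht0
      have hl : ∀ y, InT d y → Real.log |a y * t ^ ν y| = Real.log |a y| + ν y * Real.log t := by
        intro y hy
        have hpos : 0 < t ^ ν y := Real.rpow_pos_of_pos ht0' _
        rw [abs_mul, abs_of_pos hpos, Real.log_mul (abs_ne_zero.2 (ha y hy)) hpos.ne',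
          Real.log_rpow ht0']
      simp only [itp, hl x hx', hl p hp, hl q hq, hl r hr] at h1 ⊢
      linarith
    · refine Filter.Eventually.of_forall fun t h1 h2 h3 => absurd ⟨h1, h2, h3⟩ hne
  filter_upwards [(Filter.eventually_all_finset _).2 key] with t ht
  intro p q r hT x hx h1 h2 h3
  exact ht (p, q, r) hT x (mem_pts.2 hx) h1 h2 h3

end Pool.Agent.TC

end
end

section

/-! Evaluation of the polynomial; elementary tools. -/

open MvPolynomial Set Filter Topology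

noncomputable section

namespace Pool.Agent.TC

open Pool.Agent.Rags

variable {d : ℤ} {c : V → ℝ} {S : Finset Tr}

theorem Viro0a_ex_nonneg {p : V} (hp : InT d p) (s : Fin 3) : 0 ≤ ex d p s := by
  obtain ⟨h1, h2, h3⟩ := hp
  fin_cases s <;> simp [ex] <;> omega

theorem Viro0a_sg_pow (b : ZMod 2) (n : ℕ) : sg b ^ n = sg (b * (n : ZMod 2)) := by
  induction n with
  | zero => simp
  | succ n ih => rw [pow_succ, ih, Nat.cast_succ, mul_add, mul_one, sg_add]

theorem Viro0a_sg_sum (f : Fin 3 → ZMod 2) : sg (∑ s, f s) = ∏ s, sg (f s) := by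
  simp only [Fin.sum_univ_three, Fin.prod_univ_three, sg_add]

theorem Viro0a_cast {p : V} (hp : InT d p) (s : Fin 3) :
    (((ex d p s).toNat : ℕ) : ZMod 2) = (ex d p s : ZMod 2) := by
  conv_rhs => rw [← Int.toNat_of_nonneg (Viro0a_ex_nonneg hp s)]
  exact (Int.cast_natCast _).symm

theorem Viro0a_castR {p : V} (hp : InT d p) (s : Fin 3) :
    (((ex d p s).toNat : ℕ) : ℝ) = (ex d p s : ℝ) := by
  conv_rhs => rw [← Int.toNat_of_nonneg (Viro0a_ex_nonneg hp s)]
  exact (Int.cast_natCast _).symm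

theorem Viro0a_mon {p : V} (hp : InT d p) (x : E) :
    mon d c x p = sg (bit d (sgn c) (fun s => sb (x s)) p) *
      (|c p| * ∏ s, |x s| ^ (ex d p s).toNat) := by
  have e : ∏ s, x s ^ (ex d p s).toNat =
      (∏ s, sg (sb (x s) * (ex d p s : ZMod 2))) * ∏ s, |x s| ^ (ex d p s).toNat := by
    rw [← Finset.prod_mul_distrib]
    refine Finset.prod_congr rfl fun s _ => ?_
    rw [← Viro0a_cast hp, ← Viro0a_sg_pow, ← mul_pow, sg_sb]
  rw [mon, e, bit, sg_add, Viro0a_sg_sum, sgn]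
  conv_lhs => rw [← sg_sb (c p)]
  ring

theorem Viro0a_sb_pt (l : Fin 3 → ZMod 2) (ξ : E) (s : Fin 3) : sb (pt l ξ s) = l s := by
  refine (sg_pos_iff.1 ?_).2
  rw [pt, ← mul_assoc, sg_mul_self, one_mul]
  exact Real.exp_pos _

theorem eval_poly (x : E) : eval x (poly d c) = ∑ p ∈ pts d, mon d c x p := by
  simp only [poly, mon, map_sum, map_mul, map_prod, map_pow, eval_C, eval_X]

theorem poly_hom : (poly d c).IsHomogeneous d.toNat := by
  refine IsHomogeneous.sum _ _ _ fun p hp => ?_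
  have hp' := mem_pts.1 hp
  have h1 : (∏ s, (X s : R3) ^ (ex d p s).toNat).IsHomogeneous (∑ s, (ex d p s).toNat) :=
    IsHomogeneous.prod _ _ _ fun s _ => isHomogeneous_X_pow s _
  have h2 : ∑ s, (ex d p s).toNat = d.toNat := by
    obtain ⟨a1, a2, a3⟩ := hp'
    simp only [Fin.sum_univ_three, ex, Matrix.cons_val_zero, Matrix.cons_val_one,
      Matrix.cons_val_two, Matrix.head_cons, Matrix.tail_cons]
    omega
  rw [h2] at h1
  exact h1.C_mul _

theorem mon_pt {p : V} (hp : InT d p) (hc : c p ≠ 0) (l : Fin 3 → ZMod 2) (ξ : E) :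
    mon d c (pt l ξ) p = sg (bit d (sgn c) l p) * Real.exp (lg d c ξ p) := by
  rw [Viro0a_mon hp]
  simp only [Viro0a_sb_pt]
  congr 1
  rw [lg, Real.exp_add, Real.exp_log (abs_pos.2 hc), lf, Real.exp_sum]
  congr 1
  refine Finset.prod_congr rfl fun s _ => ?_
  rw [pt, abs_mul, abs_sg, one_mul, abs_of_pos (Real.exp_pos _), ← Real.exp_nat_mul,
    Viro0a_castR hp]

/-- the sign of a monomial at an arbitrary point -/
theorem sb_mon {p : V} (hp : InT d p) {x : E} (hx : mon d c x p ≠ 0) :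
    sb (mon d c x p) = bit d (sgn c) (fun s => sb (x s)) p ∧ ∀ s, ex d p s ≠ 0 → x s ≠ 0 := by
  constructor
  · refine (sg_pos_iff.1 ?_).2
    have h := Viro0a_mon (c := c) hp x
    have h0 : 0 ≤ |c p| * ∏ s, |x s| ^ (ex d p s).toNat := by positivity
    have h1 : |c p| * ∏ s, |x s| ^ (ex d p s).toNat ≠ 0 := fun e => hx (by rw [h, e, mul_zero])
    rw [h, ← mul_assoc, sg_mul_self, one_mul]
    exact lt_of_le_of_ne h0 h1.symm
  · intro s hs h0
    apply hx
    have h1 := Viro0a_ex_nonneg hp s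
    rw [mon, Finset.prod_eq_zero (Finset.mem_univ s), mul_zero]
    rw [h0, zero_pow]
    omega

theorem pt_ne (l : Fin 3 → ZMod 2) (ξ : E) : pt l ξ ≠ 0 := by
  intro h
  exact mul_ne_zero (sg_ne (l 0)) (Real.exp_pos (ξ 0)).ne' (congrFun h 0)

theorem cont_pt (l : Fin 3 → ZMod 2) : Continuous (pt l) := by
  unfold pt
  fun_prop

theorem cont_mon (p : V) : Continuous fun x => mon d c x p := by
  unfold mon
  fun_prop

/-- the open octants are dense -/
theorem freq_pt (x : E) : ∃ᶠ y in 𝓝 x, ∃ l ξ, y = pt l ξ := by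
  have hd : Dense (Set.pi univ fun _ : Fin 3 => ({0}ᶜ : Set ℝ)) :=
    dense_pi univ fun _ _ => dense_compl_singleton 0
  refine (mem_closure_iff_frequently.1 (hd x)).mono fun y hy => ?_
  refine ⟨fun s => sb (y s), fun s => Real.log |y s|, funext fun s => ?_⟩
  have h : y s ≠ 0 := hy s (mem_univ s)
  rw [pt, Real.exp_log (abs_pos.2 h), sg_sb]

end Pool.Agent.TC

end
end

section

/-! Evaluation of the polynomial; elementary tools. -/

open MvPolynomial Set Filter Topology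

noncomputable section

namespace Pool.Agent.TC

open Pool.Agent.Rags

variable {d : ℤ} {c : V → ℝ} {S : Finset Tr}

theorem nrm_mem_U {F : R3} {n : ℕ} (hF : F.IsHomogeneous n) {b : ZMod 2} {x : E} (hx : x ≠ 0)
    (h : 0 < sg b * eval x F) : nrm x ∈ U F b := by
  refine ⟨nrm_mem hx, ?_⟩
  unfold nrm
  rw [eval_smul hF, mul_left_comm]
  exact mul_pos (pow_pos (nrm_pos hx) n) h

theorem reg_eq {F : R3} {n : ℕ} (hF : F.IsHomogeneous n) {b : ZMod 2} {K : Set E}
    (hK : IsPreconnected K) (h : ∀ x ∈ K, x ≠ 0 ∧ 0 < sg b * eval x F) {x y : E} (hx : x ∈ K)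
    (hy : y ∈ K) : reg F b x = reg F b y := by
  have hc : ContinuousOn nrm K := fun z hz => (contAt_nrm (h z hz).1).continuousWithinAt
  have hK' : IsPreconnected (nrm '' K) := hK.image _ hc
  have hsub : nrm '' K ⊆ U F b := by
    rintro _ ⟨z, hz, rfl⟩
    exact nrm_mem_U hF (h z hz).1 (h z hz).2
  exact connectedComponentIn_eq
    (hK'.subset_connectedComponentIn (mem_image_of_mem _ hx) hsub (mem_image_of_mem _ hy))

/-- every region meets an open octant (a small ball, `freq_pt`, `reg_eq`, `nrm_self`) -/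
theorem exists_pt {F : R3} {n : ℕ} (hF : F.IsHomogeneous n) {b : ZMod 2} {Ω : Set E}
    (h : Ω ∈ cmp (U F b)) : ∃ l ξ, 0 < sg b * eval (pt l ξ) F ∧ Ω = reg F b (pt l ξ) := by
  obtain ⟨x, hx, rfl⟩ := h
  have ho : IsOpen {y : E | y ≠ 0 ∧ 0 < sg b * eval y F} :=
    isOpen_ne.inter (isOpen_lt continuous_const (continuous_const.mul (cont_eval F)))
  obtain ⟨ε, hε, hb⟩ := Metric.isOpen_iff.1 ho x ⟨ne_zero_of_Sph hx.1, hx.2⟩
  obtain ⟨y, ⟨l, ξ, rfl⟩, hy⟩ := ((freq_pt x).and_eventually (Metric.ball_mem_nhds x hε)).exists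
  refine ⟨l, ξ, (hb hy).2, ?_⟩
  have := reg_eq hF (convex_ball x ε).isPreconnected (fun z hz => hb hz)
    (Metric.mem_ball_self hε) hy
  rw [← this, reg, nrm_self hx.1]

/-- affine functions are the linear forms `lf` (`itp_eq`) -/
theorem exists_lf (hd : 0 < d) (f : V → ℝ) (t : Tr) : ∃ η : E, ∀ u, lf d η u = itp f t u := by
  obtain ⟨A, B, C, h⟩ := itp_eq f t
  have hd' : (d : ℝ) ≠ 0 := by exact_mod_cast hd.ne'
  refine ⟨![A + C / d, B + C / d, C / d], fun u => ?_⟩
  rw [h]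
  simp only [lf, ex, Fin.sum_univ_three, Matrix.cons_val_zero, Matrix.cons_val_one,
    Matrix.cons_val]
  push_cast
  field_simp
  ring

theorem lg_add (ξ η : E) (τ : ℝ) (u : V) : lg d c (ξ + τ • η) u = lg d c ξ u + τ * lf d η u := by
  simp only [lg, lf, Fin.sum_univ_three, Pi.add_apply, Pi.smul_apply, smul_eq_mul]
  ring

theorem itp_lg {p q r : V} (hd : det (q - p) (r - p) = 1) (ξ : E) (x : V) :
    itp (lg d c ξ) (p, q, r) x = itp (fun y => Real.log |c y|) (p, q, r) x + lf d ξ x := by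
  have h := itp_affine hd (ξ 0 - ξ 2) (ξ 1 - ξ 2) (d * ξ 2) x
  have e : ∀ y : V, lf d ξ y = (ξ 0 - ξ 2) * y.1 + (ξ 1 - ξ 2) * y.2 + d * ξ 2 := by
    intro y
    simp only [lf, ex, Fin.sum_univ_three, Matrix.cons_val_zero, Matrix.cons_val_one,
      Matrix.cons_val]
    push_cast
    ring
  rw [e x, ← h]
  simp only [itp, lg, e]
  ring

theorem abs_itp_le {p q r x : V} (hp : InT d p) (hq : InT d q) (hr : InT d r) (hx : InT d x)
    {f : V → ℝ} (h1 : |f p| ≤ 1) (h2 : |f q| ≤ 1) (h3 : |f r| ≤ 1) :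
    |itp f (p, q, r) x| ≤ 6 * (d : ℝ) ^ 2 := by
  have key : ∀ a b : V, InT d a → InT d b → ∀ y : ℝ, |y| ≤ 1 →
      |((det (a - x) (b - x) : ℤ) : ℝ) * y| ≤ 2 * (d : ℝ) ^ 2 := by
    intro a b ha hb y hy
    have h0 : |det (a - x) (b - x)| ≤ 2 * d ^ 2 := by
      obtain ⟨ha1, ha2, ha3⟩ := ha
      obtain ⟨hb1, hb2, hb3⟩ := hb
      obtain ⟨hx1, hx2, hx3⟩ := hx
      have hd : 0 ≤ d := by omega
      have e1 : |a.1 - x.1| ≤ d := abs_le.2 ⟨by omega, by omega⟩
      have e2 : |a.2 - x.2| ≤ d := abs_le.2 ⟨by omega, by omega⟩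
      have e3 : |b.1 - x.1| ≤ d := abs_le.2 ⟨by omega, by omega⟩
      have e4 : |b.2 - x.2| ≤ d := abs_le.2 ⟨by omega, by omega⟩
      have m1 := mul_le_mul e1 e4 (abs_nonneg _) hd
      have m2 := mul_le_mul e2 e3 (abs_nonneg _) hd
      have m3 := abs_sub ((a.1 - x.1) * (b.2 - x.2)) ((a.2 - x.2) * (b.1 - x.1))
      rw [abs_mul, abs_mul] at m3
      simp only [det, Prod.fst_sub, Prod.snd_sub]
      linarith [sq d]
    have h1 : |((det (a - x) (b - x) : ℤ) : ℝ)| ≤ 2 * (d : ℝ) ^ 2 := by exact_mod_cast h0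
    rw [abs_mul]
    calc _ ≤ |((det (a - x) (b - x) : ℤ) : ℝ)| * 1 := mul_le_mul_of_nonneg_left hy (abs_nonneg _)
      _ ≤ _ := by rwa [mul_one]
  have k1 := key q r hq hr _ h1
  have k2 := key r p hr hp _ h2
  have k3 := key p q hp hq _ h3
  refine (abs_add_three _ _ _).trans ?_
  linarith

/-- if `F` has sign `b` then the largest monomial of sign `b` is comparable with all monomials:
the sum of the monomials of sign `b` exceeds the sum of the others -/
theorem exists_big {x : E} {b : ZMod 2} (h : 0 < sg b * eval x (poly d c)) :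
    ∃ p, InT d p ∧ 0 < sg b * mon d c x p ∧
      ∀ u, InT d u → |mon d c x u| ≤ (pts d).card * |mon d c x p| := by
  rw [eval_poly, Finset.mul_sum] at h
  have hne : (pts d).Nonempty := by
    by_contra hn
    rw [Finset.not_nonempty_iff_eq_empty.1 hn] at h
    simp at h
  obtain ⟨p, hp, hmax⟩ := (pts d).exists_max_image (fun u => sg b * mon d c x u) hne
  have habs : ∀ u, |mon d c x u| = |sg b * mon d c x u| := fun u => by
    rw [abs_mul, abs_sg, one_mul]
  have hcard : (1 : ℝ) ≤ (pts d).card := by exact_mod_cast hne.card_pos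
  have hpos : 0 < sg b * mon d c x p := by
    by_contra hn
    exact absurd (Finset.sum_nonpos fun u hu => (hmax u hu).trans (not_lt.1 hn)) (not_le.2 h)
  refine ⟨p, mem_pts.1 hp, hpos, fun u hu => ?_⟩
  have hu' := mem_pts.2 hu
  rw [habs, habs, abs_of_pos hpos]
  refine abs_le.2 ⟨?_, (hmax u hu').trans (le_mul_of_one_le_left hpos.le hcard)⟩
  rw [← Finset.add_sum_erase _ _ hu'] at h
  have h2 := Finset.sum_le_card_nsmul ((pts d).erase u) (fun u => sg b * mon d c x u) _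
    fun v hv => hmax v (Finset.mem_of_mem_erase hv)
  have h3 : (((pts d).erase u).card : ℝ) ≤ (pts d).card := by
    exact_mod_cast Finset.card_erase_le
  rw [nsmul_eq_mul] at h2
  have h4 := mul_le_mul_of_nonneg_right h3 hpos.le
  linarith

end Pool.Agent.TC

end
end

section

/-! Dominant monomials. -/

open MvPolynomial Set Filter Topology

noncomputable section

namespace Pool.Agent.TC

open Pool.Agent.Rags

variable {d : ℤ} {c : V → ℝ} {S : Finset Tr}

/-- Plan: let `m` be the maximum of `lg ξ` on `pts d`, `A = {u | m - M < lg ξ u}` (`M > 0` wlog, or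
use `|M| + 1`). Cover the barycentre `z` of `A` by a triangle `(p,q,r)`, `g = itp (lg ξ) (p,q,r)`
extended affinely (`itp_eq`): `g z ≤ m`, and `g z` is the average of `g` on `A`, where
`g u ≥ lg ξ u`, with the gain `M'` at points outside the triangle (`itp_lg`). -/
theorem dom_tri (h : Tri d S) (hc : Cov d S) {M M' : ℝ} (hM : 0 < M)
    (hM' : (pts d).card * M ≤ M') (hm : Marg d S c M') (ξ : E) :
    ∃ p q r, (p, q, r) ∈ S ∧ ∀ u, InT d u → u ≠ p → u ≠ q → u ≠ r →
      ∃ v, InT d v ∧ lg d c ξ u + M ≤ lg d c ξ v := by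
  classical
  have hd := h.pos
  have h0 : ((0, 0) : V) ∈ pts d := mem_pts.2 ⟨le_rfl, le_rfl, by simpa using hd.le⟩
  obtain ⟨v, hv, hmax⟩ := (pts d).exists_max_image (lg d c ξ) ⟨_, h0⟩
  set A := (pts d).filter fun u => lg d c ξ v - M < lg d c ξ u with hA
  have hvA : v ∈ A := Finset.mem_filter.2 ⟨hv, by linarith⟩
  have hn : (0 : ℝ) < A.card := by exact_mod_cast Finset.card_pos.2 ⟨v, hvA⟩
  have hin : ∀ u ∈ A, InT d u := fun u hu => mem_pts.1 (Finset.mem_filter.1 hu).1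
  have a1 : (0 : ℝ) ≤ ∑ u ∈ A, (u.1 : ℝ) :=
    Finset.sum_nonneg fun u hu => by exact_mod_cast (hin u hu).1
  have a2 : (0 : ℝ) ≤ ∑ u ∈ A, (u.2 : ℝ) :=
    Finset.sum_nonneg fun u hu => by exact_mod_cast (hin u hu).2.1
  have a3 : ∑ u ∈ A, (u.1 : ℝ) + ∑ u ∈ A, (u.2 : ℝ) ≤ A.card * d := by
    rw [← Finset.sum_add_distrib, ← nsmul_eq_mul, ← Finset.sum_const]
    exact Finset.sum_le_sum fun u hu => by exact_mod_cast (hin u hu).2.2
  obtain ⟨p, q, r, ht, α, β, γ, hα, hβ, hγ, hs, e1, e2⟩ :=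
    hc ((∑ u ∈ A, (u.1 : ℝ)) / A.card) ((∑ u ∈ A, (u.2 : ℝ)) / A.card) (by positivity)
      (by positivity) (by rw [← add_div, div_le_iff₀ hn]; linarith)
  refine ⟨p, q, r, ht, fun u0 hu0 n1 n2 n3 => ⟨v, mem_pts.1 hv, ?_⟩⟩
  by_contra hlt
  have hu0A : u0 ∈ A := Finset.mem_filter.2 ⟨mem_pts.2 hu0, by linarith [not_le.1 hlt]⟩
  have hdet := h.uni _ _ _ ht
  obtain ⟨a, b, k, hg⟩ := itp_eq (lg d c ξ) (p, q, r)
  obtain ⟨s1, s2, s3⟩ := itp_self hdet (lg d c ξ)
  have hcard : (A.card : ℝ) ≤ (pts d).card := by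
    exact_mod_cast Finset.card_le_card (Finset.filter_subset _ _)
  have hM0 : 0 ≤ M' := le_trans (by positivity) hM'
  have hout : ∀ u, InT d u → u ≠ p → u ≠ q → u ≠ r →
      lg d c ξ u + M' ≤ itp (lg d c ξ) (p, q, r) u := by
    intro u hu b1 b2 b3
    have := hm _ _ _ ht u hu b1 b2 b3
    rw [itp_lg hdet, lg]
    linarith
  have hge : ∀ u ∈ A, lg d c ξ u + (if u = u0 then M' else 0) ≤ itp (lg d c ξ) (p, q, r) u := by
    intro u hu
    split_ifs with e
    · rw [e]
      exact hout u0 hu0 n1 n2 n3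
    · by_cases b1 : u = p
      · rw [b1, s1, add_zero]
      by_cases b2 : u = q
      · rw [b2, s2, add_zero]
      by_cases b3 : u = r
      · rw [b3, s3, add_zero]
      linarith [hout u (hin u hu) b1 b2 b3]
  have hsum := Finset.sum_le_sum hge
  rw [Finset.sum_add_distrib, Finset.sum_ite_eq' A u0, if_pos hu0A] at hsum
  have hlo : ∑ _u ∈ A, (lg d c ξ v - M) < ∑ u ∈ A, lg d c ξ u :=
    Finset.sum_lt_sum_of_nonempty ⟨v, hvA⟩ fun u hu => (Finset.mem_filter.1 hu).2
  rw [Finset.sum_const, nsmul_eq_mul] at hlo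
  have hav : ∑ u ∈ A, itp (lg d c ξ) (p, q, r) u =
      A.card * (α * lg d c ξ p + β * lg d c ξ q + γ * lg d c ξ r) := by
    rw [div_eq_iff hn.ne'] at e1 e2
    rw [← s1, ← s2, ← s3]
    simp only [hg]
    rw [Finset.sum_add_distrib, Finset.sum_add_distrib, ← Finset.mul_sum, ← Finset.mul_sum, e1, e2,
      Finset.sum_const, nsmul_eq_mul]
    linear_combination (-(A.card : ℝ) * k) * hs
  have b1 := mul_le_mul_of_nonneg_left (hmax p (mem_pts.2 (h.inT _ _ _ ht))) hα
  have b2 := mul_le_mul_of_nonneg_left (hmax q (mem_pts.2 (h.inT2 ht))) hβ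
  have b3 := mul_le_mul_of_nonneg_left (hmax r (mem_pts.2 (h.inT3 ht))) hγ
  have b4 : α * lg d c ξ p + β * lg d c ξ q + γ * lg d c ξ r ≤ lg d c ξ v := by
    have : (α + β + γ) * lg d c ξ v = lg d c ξ v := by rw [hs, one_mul]
    linarith
  have b5 := mul_le_mul_of_nonneg_left b4 hn.le
  have b6 := mul_le_mul_of_nonneg_right hcard hM.le
  linarith

theorem Viro1_pres (h : Tri d S) {M M' : ℝ} (hM : 0 < M) (hM' : (6 * (d : ℝ) ^ 2 + 1) * M ≤ M')
    (hm : Marg d S c M') {p q r : V} (ht : (p, q, r) ∈ S) (f : V → ℝ) (hf : ∀ y, |f y| ≤ 1) :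
    ∃ ξ : E, lg d c ξ p = M * f p ∧ lg d c ξ q = M * f q ∧ lg d c ξ r = M * f r ∧
      ∀ u, InT d u → u ≠ p → u ≠ q → u ≠ r → lg d c ξ u ≤ -M := by
  have hdet := h.uni _ _ _ ht
  obtain ⟨ξ, hξ⟩ := exists_lf h.pos (fun y => -Real.log |c y|) (p, q, r)
  obtain ⟨η, hη⟩ := exists_lf h.pos f (p, q, r)
  obtain ⟨s1, s2, s3⟩ := itp_self hdet fun y => -Real.log |c y|
  obtain ⟨t1, t2, t3⟩ := itp_self hdet f
  refine ⟨ξ + M • η, ?_, ?_, ?_, fun u hu n1 n2 n3 => ?_⟩
  · rw [lg_add, lg, hξ, hη, s1, t1]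
    ring
  · rw [lg_add, lg, hξ, hη, s2, t2]
    ring
  · rw [lg_add, lg, hξ, hη, s3, t3]
    ring
  · have h1 := hm _ _ _ ht u hu n1 n2 n3
    have h2 : itp (fun y => -Real.log |c y|) (p, q, r) u =
        -itp (fun y => Real.log |c y|) (p, q, r) u := by
      simp only [itp]
      ring
    have h3 := (abs_le.1 (abs_itp_le (h.inT _ _ _ ht) (h.inT2 ht) (h.inT3 ht) hu (hf p) (hf q)
      (hf r))).2
    rw [lg_add, lg, hξ, hη, h2]
    nlinarith

/-- Plan: `exists_lf` gives `ξ₀` with `lg ξ₀ = 0` at `p, q, r` and `≤ -M'` elsewhere; add `M η`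
with `lf η` having prescribed values `0` or `-1` at the vertices (`abs_itp_le`). -/
theorem dom_face (h : Tri d S) {M M' : ℝ} (hM : 0 < M) (hM' : (6 * (d : ℝ) ^ 2 + 1) * M ≤ M')
    (hm : Marg d S c M') {p q r : V} (ht : (p, q, r) ∈ S) :
    (∃ ξ : E, ∀ u, InT d u → u ≠ p → lg d c ξ u + M ≤ lg d c ξ p) ∧
      ∃ ξ : E, lg d c ξ p = lg d c ξ q ∧
        ∀ u, InT d u → u ≠ p → u ≠ q → lg d c ξ u + M ≤ lg d c ξ p := by
  classical
  have hdet := h.uni _ _ _ ht
  have hqp : q ≠ p := by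
    rintro rfl
    simp [det] at hdet
  have hrp : r ≠ p := by
    rintro rfl
    simp [det] at hdet
  have hrq : r ≠ q := by
    rintro rfl
    simp only [det] at hdet
    linarith [mul_comm (r - p).1 (r - p).2]
  constructor
  · obtain ⟨ξ, a1, a2, a3, a4⟩ := Viro1_pres h hM hM' hm ht (fun y => if y = p then 0 else -1)
      fun y => by split_ifs <;> simp
    rw [if_pos rfl] at a1
    rw [if_neg hqp] at a2
    rw [if_neg hrp] at a3
    refine ⟨ξ, fun u hu n1 => ?_⟩
    by_cases n2 : u = q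
    · rw [n2]
      linarith
    by_cases n3 : u = r
    · rw [n3]
      linarith
    linarith [a4 u hu n1 n2 n3]
  · obtain ⟨ξ, a1, a2, a3, a4⟩ := Viro1_pres h hM hM' hm ht (fun y => if y = r then -1 else 0)
      fun y => by split_ifs <;> simp
    rw [if_neg hrp.symm] at a1
    rw [if_neg hrq.symm] at a2
    rw [if_pos rfl] at a3
    refine ⟨ξ, by rw [a1, a2], fun u hu n1 n2 => ?_⟩
    by_cases n3 : u = r
    · rw [n3]
      linarith
    linarith [a4 u hu n1 n2 n3]

/-- `exists_tri` -/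
theorem dom_of_marg (h : Tri d S) (hc : Cov d S) {M : ℝ} (hM : 0 < M) :
    ∃ M', ∀ c : V → ℝ, (∀ p, InT d p → c p ≠ 0) → Marg d S c M' → Dom d S c M := by
  refine ⟨max ((pts d).card * M) ((6 * (d : ℝ) ^ 2 + 1) * M), fun c hne hm => ⟨hne,
    dom_tri h hc hM (le_max_left _ _) hm, fun p hp => ?_,
    fun p q r ht => (dom_face h hM (le_max_right _ _) hm ht).2⟩⟩
  obtain ⟨q, r, ht⟩ := h.exists_tri hp
  exact (dom_face h hM (le_max_right _ _) hm ht).1

end Pool.Agent.TC

end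
end

section

/-! Different components of the graph give different regions. -/

open MvPolynomial Set Filter Topology

noncomputable section

namespace Pool.Agent.TC

open Pool.Agent.Rags

variable {d : ℤ} {c : V → ℝ} {S : Finset Tr} {M : ℝ}

/-- the monomial `p` is not negligible at `x` (an open condition) -/
def Big (d : ℤ) (c : V → ℝ) (M : ℝ) (x : E) (p : V) : Prop :=
  InT d p ∧ ∀ u, InT d u → |mon d c x u| < Real.exp M * |mon d c x p|

theorem Big.ev {x : E} {p : V} (h : Big d c M x p) : ∀ᶠ y in 𝓝 x, Big d c M y p := by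
    have h1 : ∀ᶠ y in 𝓝 x, ∀ u ∈ pts d, |mon d c y u| < Real.exp M * |mon d c y p| :=
      (eventually_all_finset _).2 fun u hu =>
        (cont_mon u).abs.continuousAt.eventually_lt
          (continuous_const.mul (cont_mon p).abs).continuousAt (h.2 u (mem_pts.1 hu))
    exact h1.mono fun y hy => ⟨h.1, fun u hu => hy u (mem_pts.2 hu)⟩

theorem viro2_abs (hD : Dom d S c M) {p : V} (hp : InT d p) (l : Fin 3 → ZMod 2) (ξ : E) :
    |mon d c (pt l ξ) p| = Real.exp (lg d c ξ p) := by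
  rw [mon_pt hp (hD.ne p hp), abs_mul, abs_sg, one_mul, abs_of_pos (Real.exp_pos _)]

theorem viro2_big (hD : Dom d S c M) {p : V} {l : Fin 3 → ZMod 2} {ξ : E} (hp : InT d p) :
    Big d c M (pt l ξ) p ↔ ∀ u, InT d u → lg d c ξ u < M + lg d c ξ p := by
  refine ⟨fun h u hu => ?_, fun h => ⟨hp, fun u hu => ?_⟩⟩
  · have := h.2 u hu
    rwa [viro2_abs hD hu, viro2_abs hD hp, ← Real.exp_add, Real.exp_lt_exp] at this
  · rw [viro2_abs hD hu, viro2_abs hD hp, ← Real.exp_add, Real.exp_lt_exp]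
    exact h u hu

/-- move to an open octant (`freq_pt`), `Dom.tri` -/
theorem Big.adj (h : Tri d S) (hD : Dom d S c M) {x : E} {p q : V} (hp : Big d c M x p)
    (hq : Big d c M x q) : p = q ∨ Edge S p q := by
    obtain ⟨y, ⟨l, ξ, rfl⟩, h1, h2⟩ := ((freq_pt x).and_eventually (hp.ev.and hq.ev)).exists
    obtain ⟨a, b, e, ht, H⟩ := hD.tri ξ
    have key : ∀ u, Big d c M (pt l ξ) u → u = a ∨ u = b ∨ u = e := fun u hu => by
      by_contra hn
      push Not at hn
      obtain ⟨v, hv, h3⟩ := H u hu.1 hn.1 hn.2.1 hn.2.2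
      have := (viro2_big hD hu.1).1 hu v hv
      linarith
    have t2 := h.rot _ _ _ ht
    have t3 := h.rot _ _ _ t2
    rcases key p h1 with rfl | rfl | rfl <;> rcases key q h2 with rfl | rfl | rfl
    exacts [Or.inl rfl, Or.inr (Or.inl ⟨_, ht⟩), Or.inr (Or.inr ⟨_, t3⟩), Or.inr (Or.inr ⟨_, ht⟩),
      Or.inl rfl, Or.inr (Or.inl ⟨_, t2⟩), Or.inr (Or.inl ⟨_, t3⟩), Or.inr (Or.inr ⟨_, t2⟩),
      Or.inl rfl]

/-- `q` is a label of the point `x` -/
def Viro2Lab (S : Finset Tr) (d : ℤ) (c : V → ℝ) (M : ℝ) (b : ZMod 2) (x : E)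
    (q : Quot (Rel S (d := d) (e := sgn c) (b := b))) : Prop :=
  ∃ n : Nd d (sgn c) b, n.1.1 = (fun s => sb (x s)) ∧ Big d c M x n.1.2 ∧
    0 < sg b * mon d c x n.1.2 ∧ q = Quot.mk _ n

theorem viro2_uniq (h : Tri d S) (hD : Dom d S c M) {b : ZMod 2} {x : E}
    {q q' : Quot (Rel S (d := d) (e := sgn c) (b := b))} (h1 : Viro2Lab S d c M b x q)
    (h2 : Viro2Lab S d c M b x q') : q = q' := by
  obtain ⟨n, a1, a2, -, rfl⟩ := h1
  obtain ⟨n', b1, b2, -, rfl⟩ := h2
  have e : n.1.1 = n'.1.1 := a1.trans b1.symm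
  rcases Big.adj h hD a2 b2 with h3 | h3 | h3
  · exact Quot.sound (Or.inl ⟨h3, fun s _ => congrFun e s⟩)
  · exact Quot.sound (Or.inr ⟨e, h3⟩)
  · have h4 : Rel S n' n := Or.inr ⟨e.symm, h3⟩
    exact (Quot.sound h4).symm

theorem viro2_bit {b : ZMod 2} {x : E} {p : V} (hp : InT d p) (h : 0 < sg b * mon d c x p) :
    bit d (sgn c) (fun s => sb (x s)) p = b :=
  (sb_mon hp (sg_pos_iff.1 h).1).1.symm.trans (sg_pos_iff.1 h).2

theorem viro2_ev {b : ZMod 2} {x : E} {q : Quot (Rel S (d := d) (e := sgn c) (b := b))}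
    (h1 : Viro2Lab S d c M b x q) : ∀ᶠ y in 𝓝 x, Viro2Lab S d c M b y q := by
  obtain ⟨n, a1, a2, a3, rfl⟩ := h1
  have e1 : ∀ᶠ y in 𝓝 x, 0 < sg b * mon d c y n.1.2 :=
    continuous_const.continuousAt.eventually_lt
      (continuous_const.mul (cont_mon n.1.2)).continuousAt a3
  have e2 : ∀ᶠ y in 𝓝 x, ∀ s, ex d n.1.2 s ≠ 0 → sb (y s) = sb (x s) := by
    refine eventually_all.2 fun s => ?_
    by_cases hs : ex d n.1.2 s = 0
    · exact Eventually.of_forall fun y h => absurd hs h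
    · have h0 : x s ≠ 0 := (sb_mon a2.1 (sg_pos_iff.1 a3).1).2 s hs
      have h2 : 0 < sg (sb (x s)) * x s := sg_pos_iff.2 ⟨h0, rfl⟩
      have h3 : ∀ᶠ y in 𝓝 x, 0 < sg (sb (x s)) * y s :=
        continuous_const.continuousAt.eventually_lt
          (continuous_const.mul (continuous_apply s)).continuousAt h2
      exact h3.mono fun y hy _ => (sg_pos_iff.1 hy).2
  filter_upwards [a2.ev, e1, e2] with y h2 h3 h4
  refine ⟨⟨(fun s => sb (y s), n.1.2), a2.1, viro2_bit a2.1 h3⟩, rfl, h2, h3, Quot.sound ?_⟩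
  exact Or.inl ⟨rfl, fun s hs => (congrFun a1 s).trans (h4 s hs).symm⟩

theorem viro2_card (h : Tri d S) (hM : Real.log (pts d).card < M) :
    ((pts d).card : ℝ) < Real.exp M ∧ 0 < M := by
  obtain ⟨⟨p, q, r⟩, ht⟩ := h.ne
  have h1 : (1 : ℝ) ≤ (pts d).card := by
    exact_mod_cast Finset.card_pos.2 ⟨p, mem_pts.2 (h.inT _ _ _ ht)⟩
  exact ⟨(Real.log_lt_iff_lt_exp (by linarith)).1 hM, (Real.log_nonneg h1).trans_lt hM⟩

theorem viro2_ex (h : Tri d S) (hM : Real.log (pts d).card < M) {b : ZMod 2} {x : E}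
    (hx : x ∈ U (poly d c) b) : ∃ q, Viro2Lab S d c M b x q := by
  obtain ⟨p, hp, h1, h2⟩ := exists_big hx.2
  refine ⟨_, ⟨(fun s => sb (x s), p), hp, viro2_bit hp h1⟩, rfl, ⟨hp, fun u hu => ?_⟩, h1, rfl⟩
  exact (h2 u hu).trans_lt
    (mul_lt_mul_of_pos_right (viro2_card h hM).1 (abs_pos.2 (sg_pos_iff.1 h1).1))

theorem viro2_surj (h : Tri d S) (hD : Dom d S c M) (hM : Real.log (pts d).card < M)
    {b : ZMod 2} (q : Quot (Rel S (d := d) (e := sgn c) (b := b))) :
    ∃ x ∈ U (poly d c) b, Viro2Lab S d c M b x q := by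
  obtain ⟨⟨⟨l, p⟩, hp, hb⟩, rfl⟩ := Quot.exists_rep q
  obtain ⟨hc, hM0⟩ := viro2_card h hM
  obtain ⟨ξ, H⟩ := hD.vtx p hp
  have ht := nrm_pos (pt_ne l ξ)
  have hS := nrm_mem (pt_ne l ξ)
  set t := (√(pt l ξ ⬝ᵥ pt l ξ))⁻¹ with htd
  set η : E := fun s => ξ s + Real.log t with hη
  have e1 : nrm (pt l ξ) = pt l η := by
    funext s
    simp only [nrm, ← htd, Pi.smul_apply, smul_eq_mul, pt, hη, Real.exp_add, Real.exp_log ht]
    ring
  have e2 : ∀ u, lg d c η u = lg d c ξ u + d * Real.log t := fun u => by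
    simp only [lg, lf, hη, ex, Fin.sum_univ_three, Matrix.cons_val_zero, Matrix.cons_val_one,
      Matrix.cons_val]
    push_cast
    ring
  have H' : ∀ u, InT d u → u ≠ p → lg d c η u + M ≤ lg d c η p := fun u hu hne => by
    rw [e2, e2]; linarith [H u hu hne]
  rw [e1] at hS
  have hb' : bit d (sgn c) l p = b := hb
  have e3 : sg b * mon d c (pt l η) p = Real.exp (lg d c η p) := by
    rw [mon_pt hp (hD.ne p hp), hb', ← mul_assoc, sg_mul_self, one_mul]
  refine ⟨pt l η, ⟨hS, ?_⟩, ⟨(l, p), hp, hb⟩, ?_, (viro2_big hD hp).2 fun u hu => ?_,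
    e3 ▸ Real.exp_pos _, rfl⟩
  · have hp' : p ∈ pts d := mem_pts.2 hp
    rw [eval_poly, Finset.mul_sum, ← Finset.add_sum_erase _ _ hp', e3]
    have h1 : ∀ u ∈ (pts d).erase p,
        -(Real.exp (lg d c η p - M)) ≤ sg b * mon d c (pt l η) u := fun u hu => by
      have hu' := mem_pts.1 (Finset.mem_of_mem_erase hu)
      have h2 : |sg b * mon d c (pt l η) u| ≤ Real.exp (lg d c η p - M) := by
        rw [abs_mul, abs_sg, one_mul, viro2_abs hD hu', Real.exp_le_exp]
        linarith [H' u hu' (Finset.ne_of_mem_erase hu)]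
      exact (abs_le.1 h2).1
    have h2 := Finset.card_nsmul_le_sum _ _ _ h1
    have h3 : ((((pts d).erase p).card : ℕ) : ℝ) ≤ (pts d).card := by
      exact_mod_cast Finset.card_erase_le
    have h4 : Real.exp (lg d c η p) = Real.exp M * Real.exp (lg d c η p - M) := by
      rw [← Real.exp_add]; congr 1; ring
    rw [nsmul_eq_mul] at h2
    have h5 := Real.exp_pos (lg d c η p - M)
    nlinarith [mul_lt_mul_of_pos_right (h3.trans_lt hc) h5]
  · funext s
    have h1 : 0 < sg (l s) * pt l η s := by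
      rw [pt, ← mul_assoc, sg_mul_self, one_mul]; exact Real.exp_pos _
    exact (sg_pos_iff.1 h1).2.symm
  · by_cases hu' : u = p
    · rw [hu']; linarith
    · linarith [H' u hu hu']

/-- Plan: for `x ∈ U b` the label is the class of `(fun s => sb (x s), p)` for a big `p` with
`0 < sg b * mon x p` (`exists_big`, `sb_mon`); independent of `p` by `adj`; locally constant
(`Big.ev`, the signs of the coordinates with `ex d p s ≠ 0` persist), so constant on regions
(`loc_const`). Every class occurs: take `nrm (pt l ξ)` with `ξ` from `Dom.vtx` (`mon` is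
homogeneous). So `cmp (U b)` surjects onto the quotient. -/
theorem viro_ge (h : Tri d S) (hD : Dom d S c M) (hM : Real.log (pts d).card < M) (b : ZMod 2)
    (hU : (cmp (U (poly d c) b)).Finite) : cc S d (sgn c) b ≤ PC (poly d c) b := by
    classical
    choose f hf1 hf2 using viro2_surj h hD hM (b := b)
    have := hU.to_subtype
    unfold cc PC
    rw [← Nat.card_coe_set_eq]
    refine Nat.card_le_card_of_injective
      (fun q => (⟨connectedComponentIn (U (poly d c) b) (f q), f q, hf1 q, rfl⟩ :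
        cmp (U (poly d c) b))) fun q q' e => ?_
    have e1 : connectedComponentIn (U (poly d c) b) (f q) =
        connectedComponentIn (U (poly d c) b) (f q') := congrArg Subtype.val e
    have hq' : f q' ∈ connectedComponentIn (U (poly d c) b) (f q) :=
      e1 ▸ mem_connectedComponentIn (hf1 q')
    have key := loc_const (isPreconnected_connectedComponentIn (F := U (poly d c) b) (x := f q))
      (fun x => {q | Viro2Lab S d c M b x q}) (fun x hx => ?_) (mem_connectedComponentIn (hf1 q)) hq'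
    · exact viro2_uniq h hD (show q ∈ {q | Viro2Lab S d c M b (f q') q} from key ▸ hf2 q) (hf2 q')
    · obtain ⟨q0, h0⟩ := viro2_ex h hM (connectedComponentIn_subset _ _ hx)
      refine ((viro2_ev h0).filter_mono nhdsWithin_le_nhds).mono fun y hy => ?_
      ext q1
      exact ⟨fun h1 => viro2_uniq h hD hy h1 ▸ h0, fun h1 => viro2_uniq h hD h0 h1 ▸ hy⟩

end Pool.Agent.TC

end
end

section

/-! The convex sets of the vertices. -/

open MvPolynomial Set Filter Topology

noncomputable section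

namespace Pool.Agent.TC

open Pool.Agent.Rags

variable {d : ℤ} {c : V → ℝ} {S : Finset Tr} {M : ℝ}

theorem Viro3a_lg (ξ η : E) {a b : ℝ} (hab : a + b = 1) (u : V) :
    lg d c (a • ξ + b • η) u = a * lg d c ξ u + b * lg d c η u := by
  have hb : b = 1 - a := by linarith
  subst hb
  simp only [lg, lf, Fin.sum_univ_three, Pi.add_apply, Pi.smul_apply, smul_eq_mul]
  ring

theorem Wd_convex (l : Fin 3 → ZMod 2) (p : V) : Convex ℝ (Wd d c l p) := by
  intro ξ hξ η hη a b ha hb hab u hu hne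
  have h1 := hξ u hu hne
  have h2 := hη u hu hne
  rw [Viro3a_lg ξ η hab, Viro3a_lg ξ η hab]
  have hb' : b = 1 - a := by linarith
  subst hb'
  rcases ha.eq_or_lt with rfl | ha'
  · linarith
  · nlinarith [mul_pos ha' (sub_pos.2 h1), mul_nonneg hb (sub_pos.2 h2).le]

theorem Viro3a_pos {x : E} {p : V} (hp : InT d p) {b : ZMod 2} (h0 : 0 < sg b * mon d c x p)
    (h : ∀ u, InT d u → u ≠ p →
      -(sg b * mon d c x p) ≤ (pts d).card * (sg b * mon d c x u)) :
    0 < sg b * eval x (poly d c) := by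
  classical
  have hp' : p ∈ pts d := mem_pts.2 hp
  have hN : (0 : ℝ) < (pts d).card := by exact_mod_cast Finset.card_pos.2 ⟨p, hp'⟩
  have hc : (((pts d).erase p).card : ℝ) + 1 = (pts d).card := by
    exact_mod_cast Finset.card_erase_add_one hp'
  have h1 := Finset.sum_le_sum (s := (pts d).erase p)
    (fun u hu => h u (mem_pts.1 (Finset.mem_of_mem_erase hu)) (Finset.ne_of_mem_erase hu))
  rw [Finset.sum_const, nsmul_eq_mul, ← Finset.mul_sum] at h1
  rw [eval_poly, Finset.mul_sum, ← Finset.add_sum_erase _ _ hp']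
  refine (mul_pos_iff_of_pos_left hN).1 ?_
  nlinarith

theorem Viro3a_exp {p : V} (hp : InT d p) {a b : ℝ} (h : a + Real.log (pts d).card ≤ b) :
    ((pts d).card : ℝ) * Real.exp a ≤ Real.exp b := by
  have hN : (0 : ℝ) < (pts d).card := by exact_mod_cast Finset.card_pos.2 ⟨p, mem_pts.2 hp⟩
  have := Real.exp_le_exp.2 h
  rw [Real.exp_add, Real.exp_log hN] at this
  linarith

theorem Viro3a_sg {a b : ZMod 2} (h : a ≠ b) : sg a = -sg b := by
  rcases zmod2 a with rfl | rfl <;> rcases zmod2 b with rfl | rfl <;> simp at h ⊢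

theorem Wd_pos (hc : ∀ p, InT d p → c p ≠ 0) {l : Fin 3 → ZMod 2} {p : V} (hp : InT d p) {ξ : E}
    (h : ξ ∈ Wd d c l p) : 0 < sg (bit d (sgn c) l p) * eval (pt l ξ) (poly d c) := by
  have e : sg (bit d (sgn c) l p) * mon d c (pt l ξ) p = Real.exp (lg d c ξ p) := by
    rw [mon_pt hp (hc p hp), ← mul_assoc, sg_mul_self, one_mul]
  refine Viro3a_pos hp (by rw [e]; exact Real.exp_pos _) fun u hu _ => ?_
  rw [e, mon_pt hu (hc u hu), ← mul_assoc (sg _)]
  by_cases hb : bit d (sgn c) l u = bit d (sgn c) l p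
  · rw [hb, sg_mul_self, one_mul]
    have := Real.exp_pos (lg d c ξ p)
    have : (0 : ℝ) ≤ (pts d).card * Real.exp (lg d c ξ u) := by positivity
    linarith
  · rw [Viro3a_sg hb, mul_neg, sg_mul_self]
    have := Viro3a_exp hp (h u hu hb).le
    linarith

theorem Viro3a_mem (hM : Real.log (pts d).card < M) (l : Fin 3 → ZMod 2) {p : V} {ξ : E}
    (h : ∀ u, InT d u → u ≠ p → lg d c ξ u + M ≤ lg d c ξ p) : ξ ∈ Wd d c l p := by
  intro u hu hne
  have := h u hu (by rintro rfl; exact hne rfl)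
  linarith

theorem Viro3a_reg (hc : ∀ p, InT d p → c p ≠ 0) {l : Fin 3 → ZMod 2} {p : V} (hp : InT d p)
    {ξ ξ' : E} (h : ξ ∈ Wd d c l p) (h' : ξ' ∈ Wd d c l p) :
    reg (poly d c) (bit d (sgn c) l p) (pt l ξ) = reg (poly d c) (bit d (sgn c) l p) (pt l ξ') := by
  refine reg_eq poly_hom (K := pt l '' Wd d c l p)
    ((Wd_convex l p).isPreconnected.image _ (cont_pt l).continuousOn) ?_ ⟨ξ, h, rfl⟩ ⟨ξ', h', rfl⟩
  rintro _ ⟨η, hη, rfl⟩
  exact ⟨pt_ne l η, Wd_pos hc hp hη⟩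

theorem Viro3a_mon (t x : E) (u : V) :
    mon d c (fun s => t s * x s) u = (∏ s, t s ^ (ex d u s).toNat) * mon d c x u := by
  simp only [mon, mul_pow, Finset.prod_mul_distrib]
  ring

/-- Plan: both points are joined inside `Wd` to `ξ₀` from `Dom.vtx` (`reg_eq` on the image of the
convex set); join `pt l ξ₀` and `pt l' ξ₀` by the path
`τ ↦ fun s => (if l s = l' s then 1 else τ) * pt l ξ₀ s`, `τ ∈ [-1, 1]`: the monomial `p` does not
change, the others do not grow. -/
theorem Wd_glue (hd : 0 < d) (hD : Dom d S c M) (hM : Real.log (pts d).card < M)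
    {l l' : Fin 3 → ZMod 2} {p : V} (hp : InT d p) (hl : ∀ s, ex d p s ≠ 0 → l s = l' s) {ξ ξ' : E} (h : ξ ∈ Wd d c l p)
    (h' : ξ' ∈ Wd d c l' p) :
    reg (poly d c) (bit d (sgn c) l p) (pt l ξ) = reg (poly d c) (bit d (sgn c) l p) (pt l' ξ') := by
  obtain ⟨ξ₀, h0⟩ := hD.vtx p hp
  have hb : bit d (sgn c) l p = bit d (sgn c) l' p := by
    unfold bit
    congr 1
    refine Finset.sum_congr rfl fun s _ => ?_
    by_cases hs : ex d p s = 0
    · simp [hs]
    · rw [hl s hs]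
  have e1 := Viro3a_reg hD.ne hp h (Viro3a_mem hM l h0)
  have e2 := Viro3a_reg hD.ne hp (Viro3a_mem hM l' h0) h'
  rw [← hb] at e2
  rw [e1, ← e2]
  have hs0 : ∃ s, ex d p s ≠ 0 := by
    by_contra hcon
    push Not at hcon
    have a0 := hcon 0
    have a1 := hcon 1
    have a2 := hcon 2
    simp [ex] at a0 a1 a2
    omega
  let γ : ℝ → E := fun τ s => (if l s = l' s then 1 else τ) * pt l ξ₀ s
  have hγ : Continuous γ := by
    refine continuous_pi fun s => ?_
    by_cases hs : l s = l' s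
    · simp only [γ, hs, if_true]; exact continuous_const
    · simp only [γ, hs, if_false]; exact continuous_id.mul continuous_const
  have g1 : γ 1 = pt l ξ₀ := by
    funext s; simp [γ]
  have g2 : γ (-1) = pt l' ξ₀ := by
    funext s
    by_cases hs : l s = l' s
    · simp [γ, hs, pt]
    · simp only [γ, hs, if_false, pt, Viro3a_sg hs]; ring
  refine reg_eq poly_hom (K := γ '' Icc (-1) 1) (isPreconnected_Icc.image _ hγ.continuousOn) ?_
    ⟨1, by norm_num, g1⟩ ⟨-1, by norm_num, g2⟩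
  rintro _ ⟨τ, hτ, rfl⟩
  have hτ' : |τ| ≤ 1 := abs_le.2 hτ
  refine ⟨fun hz => ?_, ?_⟩
  · obtain ⟨s, hs⟩ := hs0
    have := congrFun hz s
    simp only [γ, hl s hs, if_true, one_mul, pt, Pi.zero_apply] at this
    exact mul_ne_zero (sg_ne _) (Real.exp_pos _).ne' this
  · have e : sg (bit d (sgn c) l p) * mon d c (γ τ) p = Real.exp (lg d c ξ₀ p) := by
      have : (∏ s, (if l s = l' s then (1 : ℝ) else τ) ^ (ex d p s).toNat) = 1 := by
        refine Finset.prod_eq_one fun s _ => ?_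
        by_cases hs : ex d p s = 0
        · simp [hs]
        · simp [hl s hs]
      simp only [γ]
      rw [Viro3a_mon, this, one_mul, mon_pt hp (hD.ne p hp), ← mul_assoc, sg_mul_self, one_mul]
    refine Viro3a_pos hp (by rw [e]; exact Real.exp_pos _) fun u hu hne => ?_
    have hle : |∏ s, (if l s = l' s then (1 : ℝ) else τ) ^ (ex d u s).toNat| ≤ 1 := by
      rw [Finset.abs_prod]
      refine Finset.prod_le_one (fun _ _ => abs_nonneg _) fun s _ => ?_
      rw [abs_pow]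
      refine pow_le_one₀ (abs_nonneg _) ?_
      split_ifs
      · simp
      · exact hτ'
    have ha : |sg (bit d (sgn c) l p) * mon d c (γ τ) u| ≤ Real.exp (lg d c ξ₀ u) := by
      simp only [γ]
      rw [Viro3a_mon, mon_pt hu (hD.ne u hu), abs_mul, abs_mul, abs_mul, abs_sg, abs_sg, one_mul,
        one_mul, abs_of_pos (Real.exp_pos _)]
      exact mul_le_of_le_one_left (Real.exp_pos _).le hle
    have h1 := Viro3a_exp hp (a := lg d c ξ₀ u) (b := lg d c ξ₀ p) (by linarith [h0 u hu hne])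
    have h2 := mul_le_mul_of_nonneg_left (abs_le.1 ha).1 (Nat.cast_nonneg (α := ℝ) (pts d).card)
    rw [e]
    linarith

theorem Wd_ne (hD : Dom d S c M) (hM : Real.log (pts d).card < M) (l : Fin 3 → ZMod 2) {p : V}
    (hp : InT d p) : (Wd d c l p).Nonempty := by
  obtain ⟨ξ₀, h0⟩ := hD.vtx p hp
  exact ⟨ξ₀, Viro3a_mem hM l h0⟩

theorem Wd_edge (hD : Dom d S c M) (hM : Real.log (pts d).card < M) {l : Fin 3 → ZMod 2}
    {p q r : V} (ht : (p, q, r) ∈ S) (hb : bit d (sgn c) l p = bit d (sgn c) l q) :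
    (Wd d c l p ∩ Wd d c l q).Nonempty := by
  obtain ⟨ξ, e, h⟩ := hD.edg p q r ht
  refine ⟨ξ, fun u hu hne => ?_, fun u hu hne => ?_⟩
  · have := h u hu (by rintro rfl; exact hne rfl) (by rintro rfl; exact hne hb.symm)
    linarith
  · have := h u hu (by rintro rfl; exact hne hb) (by rintro rfl; exact hne rfl)
    linarith

end Pool.Agent.TC

end
end

section

/-! Every point can be moved into one of the convex sets. -/

open MvPolynomial Set Filter Topology

noncomputable section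

namespace Pool.Agent.TC

open Pool.Agent.Rags

variable {d : ℤ} {S : Finset Tr}

private theorem Viro3b_exp {y K : ℝ} (h : |y| ≤ K) : |Real.exp y - 1| ≤ |y| * Real.exp K := by
  have h0 := abs_nonneg y
  have h1 : 1 ≤ Real.exp K := Real.one_le_exp (h0.trans h)
  have h2 : Real.exp y ≤ Real.exp K := Real.exp_le_exp.2 ((le_abs_self y).trans h)
  have h3 := Real.add_one_le_exp y
  have h4 := Real.add_one_le_exp (-y)
  have h5 := Real.exp_pos y
  have h6 : Real.exp (-y) * Real.exp y = 1 := by rw [← Real.exp_add]; simp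
  have h7 := le_abs_self y
  have h8 := neg_abs_le y
  rw [abs_le]
  constructor
  · nlinarith
  · have h9 : Real.exp y - 1 ≤ y * Real.exp y := by nlinarith
    have h10 : y * Real.exp y ≤ |y| * Real.exp y := mul_le_mul_of_nonneg_right h7 h5.le
    have h11 : |y| * Real.exp y ≤ |y| * Real.exp K := mul_le_mul_of_nonneg_left h2 h0
    linarith

private theorem Viro3b_pos (h : Tri d S) : 0 < d := by
  obtain ⟨⟨p, q, r⟩, ht⟩ := h.ne
  have h1 := h.inT _ _ _ ht
  have h2 := h.inT _ _ _ (h.rot _ _ _ ht)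
  have h3 := h.uni _ _ _ ht
  by_contra k
  simp only [InT] at h1 h2
  have e1 : q.1 - p.1 = 0 := by omega
  have e2 : q.2 - p.2 = 0 := by omega
  simp [det, e1, e2] at h3

private theorem Viro3b_sum {ι : Type} (s : Finset ι) (F : ι → ℝ) {p : ι} (hp : p ∈ s) {A δ : ℝ}
    (h1 : A ≤ F p) (h2 : ∀ u ∈ s, -δ ≤ F u) (hδ : 0 ≤ δ) (h3 : s.card * δ ≤ A) :
    0 ≤ ∑ u ∈ s, F u := by
  have h4 := Finset.single_le_sum (f := fun u => F u + δ) (s := s)
    (fun u hu => by have := h2 u hu; linarith) hp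
  rw [Finset.sum_add_distrib, Finset.sum_const, nsmul_eq_mul] at h4
  linarith

/-- Plan. `N = (pts d).card`, `B = 6 d²`, `T = 2 log N + 1`. Take the triangle of `Dom.tri` at `ξ`
and `η` with `lf η u = itp f t u`, `f v = if bit l v = b then 1 else 0` (`exists_lf`, `itp_self`,
`|lf η u| ≤ B` by `abs_itp_le`). Let `m` be the largest `exp (lg ξ u)`; `p` from `exists_big` has
`m ≤ N exp (lg ξ p)`, so is a vertex of the triangle if `M > log N`. For `τ ∈ [0, T]`, with
`Φ τ = sg b * eval (pt l (ξ + τ η))`: the vertices of sign `b` contribute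
`(e^τ - 1) exp (lg) ≥ τ exp (lg)` to `Φ τ - Φ 0`, the other vertices `0`, the remaining points at
least `- τ B e^{B T} e^{-M} m` each (`|e^y - 1| ≤ |y| e^{|y|}`). So `Φ τ ≥ Φ 0 > 0` if
`N² B e^{B T} ≤ e^M`; `reg_eq`; and `ξ + T η ∈ Wd l p` if `M ≥ B T`. -/
theorem to_Wd (h : Tri d S) : ∃ M, ∀ c : V → ℝ, Dom d S c M → ∀ l ξ b,
    0 < sg b * eval (pt l ξ) (poly d c) → ∃ p ξ', InT d p ∧ bit d (sgn c) l p = b ∧
      ξ' ∈ Wd d c l p ∧ reg (poly d c) b (pt l ξ) = reg (poly d c) b (pt l ξ') := by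
  have hd := Viro3b_pos h
  set N : ℝ := ((pts d).card : ℝ) with hN
  have hN1 : 1 ≤ N := by
    have : (pts d).Nonempty := ⟨(0, 0), mem_pts.2 ⟨le_rfl, le_rfl, by simpa using hd.le⟩⟩
    exact Nat.one_le_cast.2 this.card_pos
  have hN0 : 0 < N := by linarith
  have hlog : 0 ≤ Real.log N := Real.log_nonneg hN1
  set B : ℝ := 6 * (d : ℝ) ^ 2 with hB
  have hB0 : 0 ≤ B := by positivity
  set T : ℝ := 2 * Real.log N + 1 with hT
  have hT0 : 0 < T := by linarith
  set K : ℝ := N * N * B * Real.exp (T * B) with hK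
  have hK0 : 0 ≤ K := by positivity
  have hTB : 0 ≤ T * B := by positivity
  refine ⟨T + T * B + K, fun c hD l ξ b hpos => ?_⟩
  set M : ℝ := T + T * B + K with hM
  have hKM : K ≤ Real.exp M := by
    have := Real.add_one_le_exp M
    linarith
  obtain ⟨x, y, z, ht, htri⟩ := hD.tri ξ
  obtain ⟨η, hη⟩ := exists_lf hd (fun v => if bit d (sgn c) l v = b then (1 : ℝ) else 0) (x, y, z)
  have hv : ∀ u, u = x ∨ u = y ∨ u = z → lf d η u = if bit d (sgn c) l u = b then 1 else 0 := by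
    obtain ⟨k1, k2, k3⟩ := itp_self (h.uni _ _ _ ht)
      (fun v => if bit d (sgn c) l v = b then (1 : ℝ) else 0)
    rintro u (rfl | rfl | rfl)
    · rw [hη, k1]
    · rw [hη, k2]
    · rw [hη, k3]
  have hg : ∀ u, InT d u → |lf d η u| ≤ B := by
    intro u hu
    rw [hη]
    refine abs_itp_le (h.inT _ _ _ ht) (h.inT _ _ _ (h.rot _ _ _ ht))
      (h.inT _ _ _ (h.rot _ _ _ (h.rot _ _ _ ht))) hu ?_ ?_ ?_ <;>
      split_ifs <;> simp
  obtain ⟨p, hp, hp1, hp2⟩ := exists_big hpos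
  rw [mon_pt hp (hD.ne p hp)] at hp1 hp2
  have hpb : bit d (sgn c) l p = b := by
    have k := Real.exp_pos (lg d c ξ p)
    rcases zmod2 b with rfl | rfl <;> rcases zmod2 (bit d (sgn c) l p) with e | e <;>
      first
        | exact e
        | (rw [e] at hp1; simp at hp1; linarith)
  have hL : ∀ u, InT d u → lg d c ξ u ≤ Real.log N + lg d c ξ p := by
    intro u hu
    have k := hp2 u hu
    rw [mon_pt hu (hD.ne u hu), abs_mul, abs_mul, abs_sg, abs_sg, one_mul, one_mul,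
      abs_of_pos (Real.exp_pos _), abs_of_pos (Real.exp_pos _)] at k
    rw [← Real.exp_le_exp, Real.exp_add, Real.exp_log hN0]
    exact k
  have hnv : ∀ u, InT d u → ¬ (u = x ∨ u = y ∨ u = z) →
      lg d c ξ u + M ≤ Real.log N + lg d c ξ p := by
    intro u hu k
    push Not at k
    obtain ⟨v, hv1, hv2⟩ := htri u hu k.1 k.2.1 k.2.2
    exact hv2.trans (hL v hv1)
  have hpv : p = x ∨ p = y ∨ p = z := by
    by_contra k
    have := hnv p hp k
    linarith
  have hgp : lf d η p = 1 := by rw [hv p hpv, if_pos hpb]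
  have hΦ : ∀ τ : ℝ, sg b * eval (pt l (ξ + τ • η)) (poly d c) =
      ∑ u ∈ pts d, sg b * sg (bit d (sgn c) l u) * Real.exp (lg d c ξ u) *
        Real.exp (τ * lf d η u) := by
    intro τ
    rw [eval_poly, Finset.mul_sum]
    refine Finset.sum_congr rfl fun u hu => ?_
    rw [mon_pt (mem_pts.1 hu) (hD.ne u (mem_pts.1 hu)), lg_add, Real.exp_add]
    ring
  have hmain : ∀ τ ∈ Icc 0 T, 0 < sg b * eval (pt l (ξ + τ • η)) (poly d c) := by
    intro τ hτ
    have h0 := hΦ 0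
    rw [zero_smul, add_zero] at h0
    have hE := Real.exp_pos (lg d c ξ p)
    have hM0 := Real.exp_pos M
    have hτ0 := hτ.1
    have key := Viro3b_sum (pts d) (fun u => sg b * sg (bit d (sgn c) l u) *
        Real.exp (lg d c ξ u) * (Real.exp (τ * lf d η u) - 1)) (mem_pts.2 hp)
      (A := τ * Real.exp (lg d c ξ p))
      (δ := N * Real.exp (lg d c ξ p) / Real.exp M * (τ * B * Real.exp (T * B))) ?_ ?_
      (by positivity) ?_
    · rw [hΦ τ]
      rw [h0] at hpos
      simp only [mul_sub, Finset.sum_sub_distrib] at key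
      simp only [zero_mul, Real.exp_zero] at hpos
      linarith
    · rw [hpb, sg_mul_self, hgp, one_mul, mul_one]
      have := Real.add_one_le_exp τ
      nlinarith
    · intro u hu
      have hu := mem_pts.1 hu
      have hδ : 0 ≤ N * Real.exp (lg d c ξ p) / Real.exp M * (τ * B * Real.exp (T * B)) := by
        positivity
      by_cases k : u = x ∨ u = y ∨ u = z
      · rw [hv u k]
        split_ifs with e
        · rw [e, sg_mul_self, one_mul, mul_one]
          have k1 := Real.one_le_exp hτ0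
          have k2 := Real.exp_pos (lg d c ξ u)
          have : 0 ≤ Real.exp (lg d c ξ u) * (Real.exp τ - 1) := mul_nonneg k2.le (by linarith)
          linarith
        · simp only [mul_zero, Real.exp_zero, sub_self]
          linarith
      · refine neg_le_of_abs_le ?_
        rw [abs_mul, abs_mul, abs_mul, abs_sg, abs_sg, one_mul, one_mul,
          abs_of_pos (Real.exp_pos _)]
        have k1 : |τ * lf d η u| ≤ τ * B := by
          rw [abs_mul, abs_of_nonneg hτ0]
          exact mul_le_mul_of_nonneg_left (hg u hu) hτ0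
        have k2 : τ * B ≤ T * B := mul_le_mul_of_nonneg_right hτ.2 hB0
        refine mul_le_mul ?_ ((Viro3b_exp (k1.trans k2)).trans
          (mul_le_mul_of_nonneg_right k1 (Real.exp_pos _).le)) (abs_nonneg _) (by positivity)
        rw [le_div_iff₀ hM0, ← Real.exp_add, ← Real.exp_log hN0, ← Real.exp_add, Real.exp_le_exp]
        exact hnv u hu k
    · have e : N * (N * Real.exp (lg d c ξ p) / Real.exp M * (τ * B * Real.exp (T * B))) =
          τ * Real.exp (lg d c ξ p) * (K / Real.exp M) := by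
        rw [hK]
        ring
      rw [← hN, e]
      exact mul_le_of_le_one_right (by positivity) ((div_le_one hM0).2 hKM)
  refine ⟨p, ξ + T • η, hp, hpb, fun u hu hne => ?_, ?_⟩
  · rw [lg_add, lg_add, hgp, ← hN]
    rw [hpb] at hne
    by_cases k : u = x ∨ u = y ∨ u = z
    · rw [hv u k, if_neg hne]
      have := hL u hu
      linarith
    · have k1 := hnv u hu k
      have k2 : T * lf d η u ≤ T * B :=
        mul_le_mul_of_nonneg_left ((le_abs_self _).trans (hg u hu)) hT0.le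
      linarith
  · refine reg_eq poly_hom (K := (fun τ : ℝ => pt l (ξ + τ • η)) '' Icc 0 T)
      (isPreconnected_Icc.image _ ((cont_pt l).comp (by fun_prop)).continuousOn) ?_
      ⟨0, ⟨le_rfl, hT0.le⟩, by simp⟩ ⟨T, ⟨hT0.le, le_rfl⟩, rfl⟩
    rintro _ ⟨τ, hτ, rfl⟩
    exact ⟨pt_ne _ _, hmain τ hτ⟩

end Pool.Agent.TC

end
end

section

/-! Patchworking: regions and components of the graph. -/

open MvPolynomial Set Filter Topology

noncomputable section

namespace Pool.Agent.TC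

open Pool.Agent.Rags

variable {d : ℤ} {S : Finset Tr}

theorem Dom.mono {c : V → ℝ} {M M' : ℝ} (h : Dom d S c M') (hM : M ≤ M') : Dom d S c M := by
  refine ⟨h.ne, fun ξ => ?_, fun p hp => ?_, fun p q r ht => ?_⟩
  · obtain ⟨p, q, r, ht, h1⟩ := h.tri ξ
    refine ⟨p, q, r, ht, fun u hu a1 a2 a3 => ?_⟩
    obtain ⟨v, hv, h2⟩ := h1 u hu a1 a2 a3
    exact ⟨v, hv, by linarith⟩
  · obtain ⟨ξ, h1⟩ := h.vtx p hp
    exact ⟨ξ, fun u hu a1 => by linarith [h1 u hu a1]⟩
  · obtain ⟨ξ, h0, h1⟩ := h.edg p q r ht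
    exact ⟨ξ, h0, fun u hu a1 a2 => by linarith [h1 u hu a1 a2]⟩

/-- Plan: `(l, p) ↦ reg b (pt l ξ)`, `ξ ∈ Wd l p` chosen (`Wd_ne`), descends to the quotient
(`Wd_glue`, `Wd_edge`) and its range contains all regions (`exists_pt`, `to_Wd`). -/
theorem viro_le (h : Tri d S) : ∃ M, ∀ c : V → ℝ, Dom d S c M → ∀ b,
    (cmp (U (poly d c) b)).Finite ∧ PC (poly d c) b ≤ cc S d (sgn c) b := by
  obtain ⟨M0, h0⟩ := to_Wd h
  refine ⟨max M0 (Real.log (pts d).card + 1), fun c hD b => ?_⟩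
  have hM : Real.log (pts d).card < max M0 (Real.log (pts d).card + 1) :=
    lt_max_of_lt_right (lt_add_one _)
  have h1 := h0 c (hD.mono (le_max_left _ _))
  choose ξ hξ using fun x : Nd d (sgn c) b => Wd_ne hD hM x.1.1 x.2.1
  let g : Nd d (sgn c) b → Set E := fun x => reg (poly d c) b (pt x.1.1 (ξ x))
  have hg : ∀ (x : Nd d (sgn c) b) l η, (∀ s, ex d x.1.2 s ≠ 0 → x.1.1 s = l s) →
      η ∈ Wd d c l x.1.2 → g x = reg (poly d c) b (pt l η) := fun x l η hl hη => by
    have h2 := Wd_glue h.pos hD hM x.2.1 hl (hξ x) hη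
    rwa [x.2.2] at h2
  have hr : ∀ x y : Nd d (sgn c) b, Rel S x y → g x = g y := by
    rintro x y (⟨e, hl⟩ | ⟨e, r, ht⟩)
    · exact hg x _ _ hl (e ▸ hξ y)
    · obtain ⟨η, a1, a2⟩ := Wd_edge hD hM (l := x.1.1) ht (by rw [x.2.2, e, y.2.2])
      rw [hg x _ η (fun _ _ => rfl) a1, hg y _ η (fun _ _ => by rw [e]) a2]
  have hs : cmp (U (poly d c) b) ⊆ Quot.lift g hr '' univ := by
    intro Ω hΩ
    obtain ⟨l, η, a1, rfl⟩ := exists_pt poly_hom hΩ
    obtain ⟨p, η', hp, hb, a2, a3⟩ := h1 l η b a1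
    exact ⟨Quot.mk _ ⟨(l, p), hp, hb⟩, trivial,
      (hg ⟨(l, p), hp, hb⟩ l η' (fun _ _ => rfl) a2).trans a3.symm⟩
  have hf := (finite_univ (α := Quot (Rel S (d := d) (e := sgn c) (b := b)))).image
    (Quot.lift g hr)
  refine ⟨hf.subset hs, (ncard_le_ncard hs hf).trans ((ncard_image_le finite_univ).trans ?_)⟩
  rw [ncard_univ]
  rfl

theorem viro (h : Tri d S) (hc : Cov d S) : ∃ M, ∀ c : V → ℝ, (∀ p, InT d p → c p ≠ 0) →
    Marg d S c M → ∀ b, (cmp (U (poly d c) b)).Finite ∧ PC (poly d c) b = cc S d (sgn c) b := by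
  obtain ⟨M0, h0⟩ := viro_le h
  have hM : Real.log (pts d).card < max M0 (Real.log (pts d).card + 1) :=
    lt_max_of_lt_right (lt_add_one _)
  obtain ⟨M, h1⟩ := dom_of_marg h hc ((Real.log_natCast_nonneg _).trans_lt hM)
  refine ⟨M, fun c hne hm b => ?_⟩
  have hD := h1 c hne hm
  obtain ⟨a1, a2⟩ := h0 c (hD.mono (le_max_left _ _)) b
  exact ⟨a1, le_antisymm a2 (viro_ge h hD hM b a1)⟩

end Pool.Agent.TC

end
end

end

-- part MP_e73476_ag.T.Main
section

section

/-! The combinatorial theorem. -/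

open Finset

noncomputable section

namespace Pool.Agent.TC

variable {d : ℤ} {S : Finset Tr} {e : V → ZMod 2} {ω : V → V → ℝ}

open Classical in
/-- odd-odd edges across which the colour changes -/
def chords (S : Finset Tr) (e : V → ZMod 2) : Finset (V × V) :=
  (S.filter fun t => ¬ Ev t.1 ∧ ¬ Ev t.2.1 ∧
    ∃ s, (t.2.1, t.1, s) ∈ S ∧ col e t ≠ col e (t.2.1, t.1, s)).image fun t => (t.1, t.2.1)

theorem Comba_mem {p q : V} : (p, q) ∈ chords S e ↔ ∃ r, (p, q, r) ∈ S ∧ ¬ Ev p ∧ ¬ Ev q ∧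
    ∃ s, (q, p, s) ∈ S ∧ col e (p, q, r) ≠ col e (q, p, s) := by
  simp only [chords, mem_image, mem_filter]
  constructor
  · rintro ⟨⟨a, b, c⟩, h1, h⟩
    obtain ⟨rfl, rfl⟩ := Prod.mk.inj h
    exact ⟨c, h1⟩
  · rintro ⟨r, h1⟩
    exact ⟨(p, q, r), h1, rfl⟩

theorem Comba_ev (p : V) : Ev p ↔ (p.1 : ZMod 2) = 0 ∧ (p.2 : ZMod 2) = 0 := by
  simp only [Ev, ZMod.intCast_zmod_eq_zero_iff_dvd]
  omega

set_option synthInstance.maxSize 1000 in
theorem Comba_par : ∀ p1 p2 q1 q2 r1 r2 s1 s2 D : ZMod 2,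
    (q1 - p1) * (r2 - p2) - (q2 - p2) * (r1 - p1) = 1 →
    s1 - p1 + (r1 - p1) = D * (q1 - p1) → s2 - p2 + (r2 - p2) = D * (q2 - p2) →
    ¬ (p1 = 0 ∧ p2 = 0) → ¬ (q1 = 0 ∧ q2 = 0) →
    (D = 0 ∧ ((r1 = 0 ∧ r2 = 0) ↔ (s1 = 0 ∧ s2 = 0))) ∨
      (D = 1 ∧ ((r1 = 0 ∧ r2 = 0) ↔ ¬ (s1 = 0 ∧ s2 = 0))) := by
  decide +kernel

theorem Comba_ne : ∀ a b : ZMod 2, (a ≠ b → a - b = 1) ∧ (a + b = 0 → a = b) ∧ a - b = a + b := by
  decide

theorem col_rot (h : Tri d S) : RotInv S (col e) := by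
  intro p q r ht
  have h1 := h.ev_two ht
  have h2 := h.ev_two (h.rot _ _ _ ht)
  have h3 := h.ev_two (h.rot2 ht)
  simp only [col]
  by_cases hp : Ev p
  · simp [hp, (h1 hp).1, (h1 hp).2]
  by_cases hq : Ev q
  · simp [hp, hq]
  by_cases hr : Ev r
  · simp [hp, hq, hr]
  · simp only [hp, hq, hr, if_false]; ring

/-- on odd-odd edges the twist is the colour change; across an odd-even edge the colour does not
change -/
theorem tw_eq (h : Tri d S) {p q r s : V} (h1 : (p, q, r) ∈ S) (h2 : (q, p, s) ∈ S) :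
    (¬ Ev p → ¬ Ev q → tw e p q r s = col e (p, q, r) + col e (q, p, s)) ∧
      (Ev p ∨ Ev q → col e (p, q, r) = col e (q, p, s)) := by
  constructor
  · intro hp hq
    have e0 := (h.opp_eq h1 h2).1
    have e1 := congrArg (fun x : V => (x.1 : ZMod 2)) e0
    have e2 := congrArg (fun x : V => (x.2 : ZMod 2)) e0
    have e3 := congrArg (fun x : ℤ => (x : ZMod 2)) (h.uni _ _ _ h1)
    simp only [tw]
    generalize det (s - p) (r - p) = D at e1 e2 ⊢
    simp only [det, Prod.fst_add, Prod.snd_add, Prod.fst_sub, Prod.snd_sub, Prod.smul_fst,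
      Prod.smul_snd, smul_eq_mul] at e1 e2 e3
    push_cast at e1 e2 e3
    have key := Comba_par _ _ _ _ _ _ _ _ _ e3 e1 e2 (by rwa [← Comba_ev]) (by rwa [← Comba_ev])
    rw [← Comba_ev, ← Comba_ev] at key
    have two : (2 : ZMod 2) = 0 := rfl
    simp only [col, hp, hq, if_false]
    rcases key with ⟨hD, hk⟩ | ⟨hD, hk⟩
    · rw [hD]
      by_cases hr : Ev r
      · simp [hr, hk.1 hr]
      · have hs : ¬ Ev s := fun hs => hr (hk.2 hs)
        simp only [hr, hs, if_false]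
        linear_combination (-(1 + e p + e q)) * two
    · rw [hD]
      by_cases hr : Ev r
      · simp only [hr, hk.1 hr, if_true, if_false]; ring
      · have hs : Ev s := by by_contra hs; exact hr (hk.2 hs)
        simp only [hr, hs, if_true, if_false]; ring
  · intro hpq
    by_cases hp : Ev p
    · simp [col, hp, (h.ev_two h1 hp).1]
    · have hq : Ev q := hpq.resolve_left hp
      simp [col, hp, hq]

theorem Comba_sum (h : Tri d S) {v x r : V} (ht : (v, x, r) ∈ S) (g : V → ZMod 2)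
    (hg : ∀ y, y ≠ x → g y = 0) : ∑ t ∈ S with t.1 = v, g t.2.1 = g x := by
  refine Finset.sum_eq_single_of_mem (v, x, r) (mem_filter.2 ⟨ht, rfl⟩) ?_
  rintro ⟨a, b, c⟩ hb hne
  obtain ⟨hb1, hb2⟩ := mem_filter.1 hb
  obtain rfl : a = v := hb2
  refine hg _ fun hbx => hne ?_
  obtain rfl : b = x := hbx
  rw [h.uniq _ _ _ _ hb1 ht]

/-- `bd`: `fan_zero` at the second interior end for the function `a` of `haas`; `two`: `fan_zero`
for `col` -/
theorem ch_chords (hd : d % 2 = 0) (h : Tri d S)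
    (hM : (d - 1) * (d - 2) + 3 ≤ (cc S d e 0 + cc S d e 1 : ℕ)) : Ch d S (chords S e) := by
  classical
  refine ⟨?_, ?_, ?_, ?_, ?_⟩
  · intro p q hc
    obtain ⟨r, h1, hp, hq, s, h2, hne⟩ := Comba_mem.1 hc
    exact Comba_mem.2 ⟨s, h2, hq, hp, r, h1, hne.symm⟩
  · intro p q hc
    obtain ⟨r, h1, -⟩ := Comba_mem.1 hc
    exact ⟨r, h1⟩
  · intro p q hc
    obtain ⟨r, -, hp, -⟩ := Comba_mem.1 hc
    exact hp
  · rintro p q hc ⟨hpi, hqi⟩
    obtain ⟨r, h1, hp, hq, s, h2, hne⟩ := Comba_mem.1 hc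
    obtain ⟨a, ha, hj⟩ := haas hd h hM hpi
    have hqp : q ≠ p := by
      rintro rfl
      have := h.uni _ _ _ h1
      simp [det] at this
    have key := h.fan_zero hqi a (fun x => if x = p then tw e q p s r else 0) (by
      intro x r' s' k1 k2
      have k3 : (x, q, s') ∈ S := h.rot2 k2
      rw [ha _ _ _ k3, (Comba_ne _ _).2.2, hj _ _ _ _ k1 k3]
      by_cases hx : x = p
      · subst hx
        rw [h.uniq _ _ _ _ k1 h2, h.uniq _ _ _ _ k3 h1]
        simp
      · simp [hx, hqp])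
    rw [Comba_sum h h2 _ (fun y hy => if_neg hy), if_pos rfl, (tw_eq h h2 h1).1 hq hp] at key
    exact hne ((Comba_ne _ _).2.1 key).symm
  · intro p q hc hpi
    by_contra hno
    push Not at hno
    obtain ⟨r, h1, hp, -⟩ := Comba_mem.1 hc
    have key := h.fan_zero hpi (col e) (fun x => if (p, x) ∈ chords S e then 1 else 0) (by
      intro x r' s' k1 k2
      have k3 : (x, p, s') ∈ S := h.rot2 k2
      rw [col_rot h _ _ _ k3]
      by_cases hx : (p, x) ∈ chords S e
      · obtain ⟨r2, m1, -, -, s2, m2, hne⟩ := Comba_mem.1 hx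
        rw [if_pos hx, h.uniq _ _ _ _ k1 m1, h.uniq _ _ _ _ k3 m2]
        exact (Comba_ne _ _).1 hne
      · rw [if_neg hx, sub_eq_zero]
        by_cases hxe : Ev x
        · exact (tw_eq h k1 k3).2 (Or.inr hxe)
        · by_contra hne
          exact hx (Comba_mem.2 ⟨r', k1, hp, hxe, s', k3, hne⟩))
    rw [Comba_sum h h1 _ (fun y hy => if_neg (hno y hy)), if_pos hc] at key
    exact one_ne_zero key

end Pool.Agent.TC

end
end

section

/-! The combinatorial theorem. -/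

open Finset

noncomputable section

namespace Pool.Agent.TC

variable {d : ℤ} {S : Finset Tr} {e : V → ZMod 2} {ω : V → V → ℝ}

theorem Comb_mem {p q : V} : (p, q) ∈ chords S e ↔ ∃ r, (p, q, r) ∈ S ∧ ¬ Ev p ∧ ¬ Ev q ∧
    ∃ s, (q, p, s) ∈ S ∧ col e (p, q, r) ≠ col e (q, p, s) := by
  classical
  simp only [chords, mem_image, mem_filter]
  constructor
  · rintro ⟨⟨a, b, c⟩, ⟨h1, h2⟩, h⟩
    obtain ⟨rfl, rfl⟩ := Prod.mk.inj h
    exact ⟨c, h1, h2⟩
  · rintro ⟨r, h1, h2⟩
    exact ⟨(p, q, r), ⟨h1, h2⟩, rfl⟩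

theorem Comb_mem' (h : Tri d S) {p q r s : V} (h1 : (p, q, r) ∈ S) (h2 : (q, p, s) ∈ S) :
    (p, q) ∈ chords S e ↔ ¬ Ev p ∧ ¬ Ev q ∧ col e (p, q, r) ≠ col e (q, p, s) := by
  rw [Comb_mem]
  constructor
  · rintro ⟨r', a1, a2, a3, s', a4, a5⟩
    obtain rfl := h.uniq _ _ _ _ a1 h1
    obtain rfl := h.uniq _ _ _ _ a4 h2
    exact ⟨a2, a3, a5⟩
  · rintro ⟨a2, a3, a5⟩
    exact ⟨r, h1, a2, a3, s, h2, a5⟩

/-- the parity class of the odd points of the side `s + 2` -/
def Comb_z (s : Fin 3) : V := ![(0, 1), (1, 0), (1, 1)] s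

theorem Comb_det (hd : d % 2 = 0) {s : Fin 3} {p x r : V} (hp : ¬ Ev p) (hs : co d s p % 2 = 0)
    (hu : det (x - p) (r - p) = 1) :
    (det (x - p) (Comb_z s - p) % 2 = 0 ↔ ¬ Ev x ∧ co d (s + 2) x % 2 = 0) := by
  obtain ⟨p1, p2⟩ := p
  obtain ⟨x1, x2⟩ := x
  obtain ⟨r1, r2⟩ := r
  have hne : ¬ ((x1 - p1) % 2 = 0 ∧ (x2 - p2) % 2 = 0) := by
    rintro ⟨a, b⟩
    simp only [det, Prod.fst_sub, Prod.snd_sub] at hu
    obtain ⟨u, hu1⟩ := Int.dvd_of_emod_eq_zero a
    obtain ⟨v, hv1⟩ := Int.dvd_of_emod_eq_zero b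
    rw [hu1, hv1] at hu
    have : 2 * (u * (r2 - p2) - v * (r1 - p1)) = 1 := by linarith
    omega
  have key : ∀ a b : ℤ, ((x1 - p1) * a - (x2 - p2) * b) % 2 =
      ((x1 - p1) % 2 * (a % 2) - (x2 - p2) % 2 * (b % 2)) % 2 := fun a b => by
    rw [Int.sub_emod, Int.mul_emod, Int.mul_emod (x2 - p2), ← Int.sub_emod]
  simp only [Ev] at hp ⊢
  fin_cases s <;>
    simp only [co, Comb_z, det, Prod.fst_sub, Prod.snd_sub, Fin.zero_eta, Fin.mk_one,
      Fin.reduceFinMk, Fin.isValue, Fin.reduceAdd, Matrix.cons_val_zero, Matrix.cons_val_one,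
      Matrix.cons_val] at hs ⊢ <;> rw [key]
  · have a1 : (1 - p2) % 2 = 1 := by omega
    have a2 : (0 - p1) % 2 = 1 := by omega
    rw [a1, a2]
    omega
  · rcases Int.emod_two_eq_zero_or_one p1 with a | a
    · omega
    · have a1 : (0 - p2) % 2 = 1 := by omega
      have a2 : (1 - p1) % 2 = 0 := by omega
      rw [a1, a2]
      omega
  · have a1 : (1 - p2) % 2 = 0 := by omega
    have a2 : (1 - p1) % 2 = 1 := by omega
    rw [a1, a2]
    omega

theorem Comb_late (hd : d % 2 = 0) {s : Fin 3} {x : V} (hx : InT d x) (hi : ¬ Ins d x)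
    (ho : ¬ Ev x) (h : co d (s + 2) x % 2 = 0) : Late d s x := by
  obtain ⟨x1, x2⟩ := x
  simp only [InT, Ins, Ev] at hx hi ho
  fin_cases s <;>
    simp only [Late, co, Fin.zero_eta, Fin.mk_one, Fin.reduceFinMk, Fin.isValue, Fin.reduceAdd,
      Matrix.cons_val_zero, Matrix.cons_val_one, Matrix.cons_val] at h ⊢ <;> omega

theorem Comb_early {s : Fin 3} {p : V} (hp : Ins d p) (h : Early d s p) : co d s p % 2 = 0 := by
  obtain ⟨x1, x2⟩ := p
  rcases h with h | h
  · exact h.2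
  · exfalso
    simp only [Ins] at hp
    fin_cases s <;>
      simp only [co, Fin.zero_eta, Fin.mk_one, Fin.reduceFinMk, Fin.isValue, Fin.reduceAdd,
        Matrix.cons_val_zero, Matrix.cons_val_one, Matrix.cons_val] at h <;> omega

/-- Plan: for the corner `(p,a,b)` let `F = λ(w)`, `λ` the functional modulo 2 with
`λ (a - p) = 1 + e a + e p`, `λ (b - p) = 1 + e b + e p`, i.e.
`F = det w (b - p) * (1 + e a + e p) + det (a - p) w * (1 + e b + e p)`; across the edge `p x` it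
jumps by `tw * det (x - p) w`. Take `w` in the parity class of the directions from `p` to the odd
points of the side `s + 2`; add `fan_zero` for `F` and for the `a` of `haas`: the number of
twisted edges with `x - p ≡ w` is even; these are the chords to the side `s + 2`. -/
theorem even_chords (hd : d % 2 = 0) (h : Tri d S)
    (hM : (d - 1) * (d - 2) + 3 ≤ (cc S d e 0 + cc S d e 1 : ℕ)) (s : Fin 3) {p : V}
    (hp : Ins d p) : Even (((chords S e).filter fun x => x.1 = p ∧ Out d s x.1 x.2).card) := by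
  classical
  by_cases hne : ((chords S e).filter fun x => x.1 = p ∧ Out d s x.1 x.2) = ∅
  · rw [hne]
    simp
  obtain ⟨⟨p', q'⟩, hq'⟩ := nonempty_iff_ne_empty.2 hne
  obtain ⟨hq1, hq2, hq3⟩ := mem_filter.1 hq'
  obtain rfl : p' = p := hq2
  have hC := ch_chords hd h hM
  have hpo : ¬ Ev p' := hC.odd _ _ hq1
  have hE : Early d s p' := hq3.1
  have hps := Comb_early hp hE
  obtain ⟨a, ha1, ha2⟩ := haas hd h hM hp
  set w := Comb_z s - p' with hw
  have h2 : (2 : ZMod 2) = 0 := rfl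
  have hz := h.fan_zero hp
    (fun t => a t + ((det w (t.2.2 - p') : ℤ) * (1 + e t.2.1 + e p') +
      (det (t.2.1 - p') w : ℤ) * (1 + e t.2.2 + e p')))
    (fun x => if (p', x) ∈ chords S e ∧ Out d s p' x then (1 : ZMod 2) else 0) (by
      intro x r u h1 h3
      have h4 : (x, p', u) ∈ S := h.rot2 h3
      have e1 := ha2 _ _ _ _ h1 h4
      rw [if_pos (Or.inl rfl)] at e1
      have e2 : a (x, p', u) = a (p', u, x) := (ha1 _ _ _ h4).symm
      have e3 := (h.opp_eq h1 h4).1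
      have e4 : det w (r - p') - det (u - p') w =
          -(det (u - p') (r - p') * det (x - p') w) := by
        have b1 := congrArg Prod.fst e3
        have b2 := congrArg Prod.snd e3
        simp only [Prod.fst_add, Prod.snd_add, Prod.smul_fst, Prod.smul_snd, smul_eq_mul] at b1 b2
        generalize det (u - p') (r - p') = m at b1 b2 ⊢
        simp only [det]
        linear_combination w.1 * b2 - w.2 * b1
      have e5 : det w (x - p') = -det (x - p') w := by simp only [det]; ring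
      have e6 : ((det w (r - p') : ℤ) : ZMod 2) = (det (u - p') w : ℤ) -
          (det (u - p') (r - p') : ℤ) * (det (x - p') w : ℤ) := by
        have := congrArg (Int.cast : ℤ → ZMod 2) e4
        push_cast at this
        linear_combination this
      have e7 : a (p', x, r) + ((det w (r - p') : ℤ) * (1 + e x + e p') +
            (det (x - p') w : ℤ) * (1 + e r + e p')) -
          (a (p', u, x) + ((det w (x - p') : ℤ) * (1 + e u + e p') +
            (det (u - p') w : ℤ) * (1 + e x + e p'))) =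
          (1 + (det (x - p') w : ℤ)) * tw e p' x r u := by
        rw [e6, e5, ← e2, add_mul, one_mul]
        nth_rewrite 1 [← e1]
        simp only [tw]
        push_cast
        linear_combination (-a (x, p', u) + (det (x - p') w : ℤ) * (1 + e p') -
          (det (u - p') (r - p') : ℤ) * (det (x - p') w : ℤ) * (1 + e p' + e x)) * h2
      change _ - _ = _
      dsimp only
      rw [e7]
      have hdet := Comb_det (s := s) hd hpo hps (h.uni _ _ _ h1)
      rw [← hw] at hdet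
      rcases Int.emod_two_eq_zero_or_one (det (x - p') w) with hD | hD
      · obtain ⟨hx1, hx2⟩ := hdet.1 hD
        have : ((det (x - p') w : ℤ) : ZMod 2) = 0 :=
          (ZMod.intCast_zmod_eq_zero_iff_dvd _ 2).2 (Int.dvd_of_emod_eq_zero hD)
        rw [this, add_zero, one_mul, (tw_eq h h1 h4).1 hpo hx1]
        by_cases hc : (p', x) ∈ chords S e
        · rw [if_pos ⟨hc, hE, Comb_late hd (h.inT2 h1) (fun hi => hC.bd _ _ hc ⟨hp, hi⟩) hx1 hx2⟩]
          have := ((Comb_mem' h h1 h4).1 hc).2.2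
          revert this
          generalize col e (p', x, r) = c1
          generalize col e (x, p', u) = c2
          revert c1 c2
          decide
        · rw [if_neg fun hh => hc hh.1]
          have : col e (p', x, r) = col e (x, p', u) := by
            by_contra hn
            exact hc ((Comb_mem' h h1 h4).2 ⟨hpo, hx1, hn⟩)
          rw [this, ← two_mul, h2, zero_mul]
      · have : ((det (x - p') w : ℤ) : ZMod 2) = 1 := by
          rw [← Int.emod_add_mul_ediv (det (x - p') w) 2, hD]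
          push_cast
          rw [h2, zero_mul, add_zero]
        rw [this, one_add_one_eq_two, h2, zero_mul, if_neg]
        rintro ⟨hc, ho⟩
        have := hdet.2 ⟨((Comb_mem' h h1 h4).1 hc).2.1, by rw [ho.2.1]; rfl⟩
        omega)
  rw [sum_boole, filter_filter, ZMod.natCast_eq_zero_iff_even] at hz
  convert hz using 1
  symm
  refine card_bij (fun t _ => (t.1, t.2.1)) ?_ ?_ ?_
  · rintro ⟨t1, t2, t3⟩ ht
    obtain ⟨-, rfl, b1, b2⟩ := mem_filter.1 ht
    exact mem_filter.2 ⟨b1, rfl, b2⟩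
  · rintro ⟨t1, t2, t3⟩ ht ⟨u1, u2, u3⟩ hu hh
    obtain ⟨rfl, rfl⟩ := Prod.mk.inj hh
    rw [h.uniq _ _ _ _ (mem_filter.1 ht).1 (mem_filter.1 hu).1]
  · rintro ⟨x1, x2⟩ hx
    obtain ⟨b1, rfl, b2⟩ := mem_filter.1 hx
    obtain ⟨r, hr⟩ := hC.dart _ _ b1
    exact ⟨(x1, x2, r), mem_filter.2 ⟨hr, rfl, b1, b2⟩, rfl⟩

/-- `colour_bound` for the class `col = b + 1`, `FF_eq`, `chi_ineq`, `Tri.card`, `sum_wt_ev` -/
theorem comb {k : ℤ} (h : Tri (2 * k) S) (hω : Stress (2 * k) S ω)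
    (hM : (2 * k - 1) * (2 * k - 2) + 3 ≤ (cc S (2 * k) e 0 + cc S (2 * k) e 1 : ℕ))
    (b : ZMod 2) : (k - 1) * (k - 2) ≤ cc S (2 * k) e b := by
  classical
  have hd : (2 * k) % 2 = 0 := by omega
  have hk : 0 < k := by have := h.pos; omega
  have hC := ch_chords hd h hM
  have hK : Cl S (chords S e) (S.filter fun t => col e t = b + 1) := by
    refine ⟨filter_subset _ _, fun p q r ht => ?_, fun p q r s ht hs hc => ?_⟩
    · obtain ⟨a1, a2⟩ := mem_filter.1 ht
      exact mem_filter.2 ⟨h.rot _ _ _ a1, (col_rot h _ _ _ a1).trans a2⟩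
    · obtain ⟨a1, a2⟩ := mem_filter.1 ht
      refine mem_filter.2 ⟨hs, Eq.trans (Eq.symm ?_) a2⟩
      by_cases hpq : Ev p ∨ Ev q
      · exact (tw_eq h a1 hs).2 hpq
      · by_contra hn
        exact hc ((Comb_mem' h a1 hs).2 ⟨fun a => hpq (Or.inl a), fun a => hpq (Or.inr a), hn⟩)
  have hcb := colour_bound hd h hC hK hω (fun p q r s hc h1 h2 => by
    have := ((Comb_mem' h h1 h2).1 hc).2.2
    simp only [mem_filter, h1, h2, true_and]
    exact (by decide : ∀ b c1 c2 : ZMod 2, c1 ≠ c2 → (c1 = b + 1 ↔ ¬ c2 = b + 1)) _ _ _ this)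
    fun s p hp => even_chords hd h hM s hp
  have hFF := FF_eq hd h hC hK
  have hev : evK (S.filter fun t => col e t = b + 1) =
      (pts (2 * k)).filter fun p => Ev p ∧ e p = b + 1 := by
    ext p
    simp only [evK, mem_image, mem_filter, mem_pts]
    constructor
    · rintro ⟨⟨p1, q, r⟩, ⟨⟨a1, a2⟩, a3⟩, rfl⟩
      refine ⟨h.inT _ _ _ a1, a3, ?_⟩
      rw [← a2]
      simp only [col] at a3 ⊢
      rw [if_pos a3]
    · rintro ⟨a1, a2, a3⟩
      obtain ⟨q, r, ht⟩ := h.exists_tri a1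
      refine ⟨(p, q, r), ⟨⟨ht, ?_⟩, a2⟩, rfl⟩
      simp only [col]
      rw [if_pos a2, a3]
  rw [hev] at hFF
  have hb : ∀ c : ZMod 2, ¬ c = b ↔ c = b + 1 :=
    (by decide : ∀ b c : ZMod 2, ¬ c = b ↔ c = b + 1) b
  have hcard : ((S.filter fun t => col e t = b).card : ℤ) +
      (S.filter fun t => col e t = b + 1).card = 3 * (2 * k) ^ 2 := by
    rw [← h.card, ← card_filter_add_card_filter_not (s := S) fun t => col e t = b]
    simp only [hb]
    push_cast
    rfl
  have hwt : ∑ p ∈ (pts (2 * k)).filter (fun p => Ev p ∧ e p = b), wt (2 * k) p +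
      ∑ p ∈ (pts (2 * k)).filter (fun p => Ev p ∧ e p = b + 1), wt (2 * k) p = 2 * k ^ 2 + 1 := by
    rw [← sum_wt_ev hk, ← sum_filter_add_sum_filter_not ((pts (2 * k)).filter Ev) fun p => e p = b]
    simp only [hb, filter_filter]
  have hchi := chi_ineq (e := e) h b
  have hsum : ((cc S (2 * k) e 0 + cc S (2 * k) e 1 : ℕ) : ℤ) =
      cc S (2 * k) e b + cc S (2 * k) e (b + 1) := by
    rcases (by decide : ∀ b : ZMod 2, (b = 0 ∧ b + 1 = 1) ∨ (b = 1 ∧ b + 1 = 0)) b with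
      ⟨a1, a2⟩ | ⟨a1, a2⟩
    · rw [a2, a1]
      push_cast
      rfl
    · rw [a2, a1]
      push_cast
      ring
  rw [hsum] at hM
  nlinarith

end Pool.Agent.TC

end
end

section

/-! The theorem for lattice points in `ℤ × ℤ`, and the translation to natural exponents. -/

open MvPolynomial Set Filter Topology

noncomputable section

namespace Pool.Agent.TC

open Pool.Agent.Rags

theorem main (k : ℕ) (hk : 1 ≤ k) (a ν : V → ℝ) (ha : ∀ p, InT (2 * k) p → a p ≠ 0)
    (hc : Cov (2 * k) (regS (2 * k) ν)) : ∀ᶠ t in 𝓝[>] (0 : ℝ),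
    ∀ F, F = poly (2 * k) (fun p => a p * t ^ ν p) → NS F →
      (cmp (Zs F)).ncard = (2 * k - 1) * (2 * k - 2) + 2 →
      (k - 1) * (k - 2) ≤ {C | C ∈ cmp (Zs F) ∧ Even ((nest F C).ncard / 2)}.ncard ∧
      (k - 1) * (k - 2) ≤ {C | C ∈ cmp (Zs F) ∧ ¬ Even ((nest F C).ncard / 2)}.ncard := by
  have hT : Tri (2 * k) (regS (2 * k) ν) := regS_tri (by positivity) hc
  obtain ⟨ω, hω⟩ := regS_stress hT
  obtain ⟨M, hM⟩ := viro hT hc
  filter_upwards [regS_marg (ν := ν) ha M, self_mem_nhdsWithin] with t hm ht F hF hns hcard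
  have hv := hM _ (fun p hp => mul_ne_zero (ha p hp) (Real.rpow_pos_of_pos ht _).ne') hm
  rw [← hF] at hv
  have hg : Good F (2 * k) := by
    refine ⟨?_, even_two_mul k, hns⟩
    have := poly_hom (d := 2 * k) (c := fun p => a p * t ^ ν p)
    rwa [← hF, show ((2 : ℤ) * k).toNat = 2 * k by omega] at this
  have hfin : (cmp (Zs F)).Finite := Set.finite_of_ncard_ne_zero (by omega)
  have hne : (cmp (Zs F)).Nonempty := Set.nonempty_of_ncard_ne_zero (by omega)
  obtain ⟨h1, c, ⟨h2, h3⟩, h4, h5⟩ := top_main hg hfin hne fun b => (hv b).1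
  rcases Nat.lt_or_ge k 2 with hk2 | hk2
  · simp [show k - 2 = 0 by omega]
  obtain ⟨j, rfl⟩ : ∃ j, k = j + 2 := ⟨k - 2, by omega⟩
  have hb : ∀ b, (j + 2 - 1) * (j + 2 - 2) ≤ PC F b := by
    intro b
    have := comb (k := (j + 2 : ℕ)) (e := sgn fun p => a p * t ^ ν p) hT hω (by
      rw [← (hv 0).2, ← (hv 1).2]
      rw [hcard, show 2 * (j + 2) - 1 = 2 * j + 3 by omega,
        show 2 * (j + 2) - 2 = 2 * j + 2 by omega] at h1
      have h6 : (((2 * j + 3) * (2 * j + 2) + 2 + 1 : ℕ) : ℤ) ≤ (PC F 0 + PC F 1 : ℕ) := by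
        exact_mod_cast h1
      push_cast at h6 ⊢
      linarith) b
    rw [← (hv b).2] at this
    rw [show j + 2 - 1 = j + 1 by omega, show j + 2 - 2 = j by omega]
    have h7 : (((j + 1) * j : ℕ) : ℤ) ≤ PC F b := by
      push_cast at this ⊢
      linarith
    exact_mod_cast h7
  have he : Even ((j + 2 - 1) * (j + 2 - 2)) := by
    rw [show j + 2 - 1 = j + 1 by omega, show j + 2 - 2 = j by omega, mul_comm]
    exact Nat.even_mul_succ_self j
  obtain ⟨x, hx⟩ := he
  obtain ⟨y, hy⟩ := h3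
  obtain ⟨z, hz⟩ := h5
  have a1 := hb c
  have a2 := hb (c + 1)
  constructor <;> omega

theorem poly_eq (n : ℕ) (c : ℕ → ℕ → ℝ) :
    poly n (fun p => c p.1.toNat p.2.toNat) =
      ∑ i ∈ Finset.range (n + 1), ∑ j ∈ Finset.range (n + 1 - i),
        C (c i j) * X 0 ^ i * X 1 ^ j * X 2 ^ (n - i - j) := by
  rw [Finset.sum_sigma', poly]
  refine Finset.sum_bij' (fun p _ => ⟨p.1.toNat, p.2.toNat⟩) (fun x _ => ((x.1 : ℤ), (x.2 : ℤ)))
    ?_ ?_ ?_ ?_ ?_
  · intro p hp
    simp only [mem_pts, InT, Finset.mem_sigma, Finset.mem_range] at hp ⊢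
    omega
  · intro x hx
    simp only [mem_pts, InT, Finset.mem_sigma, Finset.mem_range] at hx ⊢
    omega
  · intro p hp
    simp only [mem_pts, InT] at hp
    ext <;> simp <;> omega
  · intro x _
    simp
  · intro p hp
    simp only [mem_pts, InT] at hp
    have : ((n : ℤ) - p.1 - p.2).toNat = n - p.1.toNat - p.2.toNat := by omega
    simp [ex, Fin.prod_univ_three, this, mul_assoc]

theorem cov_of (n : ℕ) (ν : ℕ → ℕ → ℝ)
    (h : ∀ u v : ℝ, 0 ≤ u → 0 ≤ v → u + v ≤ n → ∃ (p q r : ℕ × ℕ) (A B C : ℝ),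
      p.1 + p.2 ≤ n ∧ q.1 + q.2 ≤ n ∧ r.1 + r.2 ≤ n ∧
      ((q.1 : ℤ) - p.1) * ((r.2 : ℤ) - p.2) - ((q.2 : ℤ) - p.2) * ((r.1 : ℤ) - p.1) = 1 ∧
      (u, v) ∈ convexHull ℝ
        ({((p.1 : ℝ), (p.2 : ℝ)), ((q.1 : ℝ), (q.2 : ℝ)), ((r.1 : ℝ), (r.2 : ℝ))} : Set (ℝ × ℝ)) ∧
      ∀ i j : ℕ, i + j ≤ n →
        (((i, j) = p ∨ (i, j) = q ∨ (i, j) = r) → A * i + B * j + C = ν i j) ∧
        (¬ ((i, j) = p ∨ (i, j) = q ∨ (i, j) = r) → A * i + B * j + C < ν i j)) :
    Cov n (regS n fun p => ν p.1.toNat p.2.toNat) := by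
  intro u v hu hv huv
  obtain ⟨p, q, r, A, B, C, hp, hq, hr, hd, hm, hν⟩ := h u v hu hv (by exact_mod_cast huv)
  have hd' : det (((q.1 : ℤ), (q.2 : ℤ)) - ((p.1 : ℤ), (p.2 : ℤ)))
      (((r.1 : ℤ), (r.2 : ℤ)) - ((p.1 : ℤ), (p.2 : ℤ))) = 1 := by simpa [det] using hd
  refine ⟨(p.1, p.2), (q.1, q.2), (r.1, r.2), mem_regS.2 ⟨⟨?_, ?_, ?_⟩, hd', ?_⟩, ?_⟩
  · simp only [InT]; omega
  · simp only [InT]; omega
  · simp only [InT]; omega
  · rintro ⟨x1, x2⟩ hx h1 h2 h3
    simp only [InT] at hx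
    obtain ⟨i, rfl⟩ := Int.eq_ofNat_of_zero_le hx.1
    obtain ⟨j, rfl⟩ := Int.eq_ofNat_of_zero_le hx.2.1
    have e := itp_affine hd' A B C ((i : ℤ), (j : ℤ))
    have e1 := (hν p.1 p.2 hp).1 (Or.inl rfl)
    have e2 := (hν q.1 q.2 hq).1 (Or.inr (Or.inl rfl))
    have e3 := (hν r.1 r.2 hr).1 (Or.inr (Or.inr rfl))
    have e4 := (hν i j (by omega)).2 (by
      rintro (rfl | rfl | rfl)
      exacts [h1 rfl, h2 rfl, h3 rfl])
    simp only [itp, Int.toNat_natCast, Int.cast_natCast] at e ⊢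
    rw [← e1, ← e2, ← e3, e]
    exact e4
  · rw [convexHull_insert (by simp), convexHull_pair] at hm
    simp only [mem_convexJoin, mem_singleton_iff, exists_eq_left] at hm
    obtain ⟨z, ⟨a1, a2, h1, h2, h3, rfl⟩, b1, b2, h4, h5, h6, h7⟩ := hm
    have h8 := congrArg Prod.fst h7
    have h9 := congrArg Prod.snd h7
    simp only [Prod.fst_add, Prod.snd_add, Prod.smul_fst, Prod.smul_snd, smul_eq_mul] at h8 h9
    refine ⟨b1, b2 * a1, b2 * a2, h4, by positivity, by positivity, ?_, ?_, ?_⟩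
    · linear_combination h6 + b2 * h3
    · simp only [Int.cast_natCast]; linear_combination -h8
    · simp only [Int.cast_natCast]; linear_combination -h9

end Pool.Agent.TC

end
end

end
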